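import Mathlib

/-!
# Definitions for MP_77266e_gt
-/

namespace Pool.Agent.Lib.MP_77266e_gtM

open Set Topology

universe u

/-- every closed subspace is homeomorphic to a clopen subspace -/
def CO (X : Type u) [TopologicalSpace X] : Prop :=
  ∀ F : Set X, IsClosed F → ∃ U : Set X, IsClopen U ∧ Nonempty (F ≃ₜ U)

/-- the space is scattered: every nonempty subset has a point which is isolated in it -/
def Scattered (X : Type u) [TopologicalSpace X] : Prop :=
  ∀ S : Set X, S.Nonempty → ∃ x ∈ S, ∃ V : Set X, IsOpen V ∧ V ∩ S = {x}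

/-- monotone normality: there is an operator which assigns to each point `x` of an open set `U` an open set `H x U`
with `x ∈ H x U ⊆ U`, such that `x ∈ V` or `y ∈ U` whenever `H x U` meets `H y V` -/
def MonNormal (X : Type u) [TopologicalSpace X] : Prop :=
  ∃ H : X → Set X → Set X, (∀ x U, IsOpen U → x ∈ U → IsOpen (H x U) ∧ x ∈ H x U ∧ H x U ⊆ U) ∧
    ∀ x y U V, IsOpen U → IsOpen V → x ∈ U → y ∈ V → (H x U ∩ H y V).Nonempty → x ∈ V ∨ y ∈ U

/-- hereditarily collectionwise Hausdorff: every (relatively) discrete subset is separated by disjoint open sets -/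
def HCH (X : Type u) [TopologicalSpace X] : Prop :=
  ∀ S : Set X, (∀ x ∈ S, ∃ U : Set X, IsOpen U ∧ U ∩ S = {x}) → ∃ U : X → Set X, (∀ x ∈ S, IsOpen (U x) ∧ x ∈ U x) ∧
    ∀ x ∈ S, ∀ y ∈ S, x ≠ y → Disjoint (U x) (U y)

end Pool.Agent.Lib.MP_77266e_gtM
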