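import Pool.Agent.Lib.MP_77266e_gtM.Limit

/-!
# Systems of arbitrary size
-/

namespace Pool.Agent.Lib.MP_77266e_gtM

open Set Filter Topology Cardinal

universe u

variable {X : Type u} [TopologicalSpace X]

/-- the test sets for the basic letters -/
def BQ (m : ℕ) (T : Set X) (x : X) : Prop :=
  IsClosed T ∧ x ∈ Bl m T ∧ ∀ k y, y ∈ Bl k T → y = x ∧ k = m

theorem BQ.inv [T2Space X] [CompactSpace X] (m : ℕ) (T : Set X) (f : T → X) (x : T) (hf : IsEmbedding f)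
    (h : BQ m T x) : BQ m (range f) (f x) := by
  obtain ⟨h1, h2, h3⟩ := h
  refine ⟨closed_range h1 hf, ((Letr.bl m).inv T f hf x).1 h2, fun k y hy => ?_⟩
  obtain ⟨z, rfl⟩ := (Letr.bl k).sub _ hy
  obtain ⟨h4, h5⟩ := h3 k z (((Letr.bl k).inv T f hf z).2 hy)
  exact ⟨by rw [Subtype.ext h4], h5⟩

theorem base_ne [T2Space X] [CompactSpace X] {K : Set X} (hK : Good K) (hKne : K.Nonempty) (m : ℕ) :
    ∃ (T : Set X) (x : X), PP (BQ m) T x := by
  obtain ⟨p, hp, O, hO, hOV, hpO, hdis, hne, hconv⟩ := hK.ws univ isOpen_univ (by rw [univ_inter]; exact hKne)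
  have hex : ∀ k, ∃ F : Set X, IsClosed F ∧ F ⊆ O k ∩ K ∧ (Even k → Crowded F ∧ F.Nonempty) ∧ (¬ Even k → IsS m F) := by
    intro k
    by_cases hk : Even k
    · obtain ⟨C, h1, h2, h3, h4⟩ := exists_crowded hK.cl hK.cr (hO k) (hne k)
      exact ⟨C, h1, h2, fun _ => ⟨h4, h3⟩, fun h => absurd hk h⟩
    · obtain ⟨S, h1, h2⟩ := exists_IsS hK m (O k) (hO k) (hne k)
      exact ⟨S, h2.cl, h1, fun h => absurd h hk, fun _ => h2⟩
  choose F hF1 hF2 hF3 hF4 using hex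
  have hw : ∀ n : ℕ, Wdg K p (fun k => O (2 * n + k)) (fun k => F (2 * n + k)) := by
    intro n
    refine ⟨fun k => hO _, fun k => hpO _, fun k l hkl => hdis _ _ (by omega), fun N hN hpN => ?_, fun k => hF1 _,
      fun k => hF2 _⟩
    obtain ⟨a, ha⟩ := eventually_atTop.1 (hconv N hN hpN)
    exact eventually_atTop.2 ⟨a, fun k hk => ha _ (by omega)⟩
  refine ⟨wdg p (fun k => F (2 * 0 + k)), p, {T | ∃ n, T = wdg p (fun k => F (2 * n + k))}, ⟨0, rfl⟩, ?_⟩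
  rintro _ ⟨n, rfl⟩
  have h1 : ∀ k, Even (2 * n + 2 * k) := fun k => ⟨n + k, by ring⟩
  have h2 : ∀ k, ¬ Even (2 * n + (2 * k + 1)) := fun k => by
    rw [Nat.not_even_iff_odd]
    exact ⟨n + k, by ring⟩
  obtain ⟨h3, h4⟩ := Lt_wdg (hw n) (fun k => (hF3 _ (h1 k)).1) (fun k => (hF3 _ (h1 k)).2) fun k => hF4 _ (h2 k)
  refine ⟨⟨(hw n).closed, ⟨h3, univ, isOpen_univ, trivial, fun k y _ hy => h4 k y hy⟩, fun k y hy => h4 k y hy.1⟩, ?_⟩
  intro V hV hpV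
  obtain ⟨a, ha⟩ := eventually_atTop.1 (hconv V hV hpV)
  refine ⟨_, ⟨n + a, rfl⟩, ?_⟩
  rintro y (hy | hy)
  · have hy2 : y = p := hy
    rw [hy2]
    exact ⟨Or.inl rfl, hpV⟩
  · obtain ⟨k, hk⟩ := mem_iUnion.1 hy
    refine ⟨Or.inr (mem_iUnion.2 ⟨2 * a + k, ?_⟩), ha _ (by omega) (hF2 _ hk)⟩
    have h5 : 2 * n + (2 * a + k) = 2 * (n + a) + k := by ring
    change y ∈ F (2 * n + (2 * a + k))
    rw [h5]
    exact hk

theorem base_sys [T2Space X] [CompactSpace X] (hb : ∀ m : ℕ, ∃ (T : Set X) (x : X), PP (BQ m) T x) (A : Set ℕ)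
    {c : Cardinal.{u}} (hc : 1 ≤ c) :
    Sys (X := X) (fun _ : ULift.{u} A => A) c (fun i => Bl i.down.1) (fun i => BQ i.down.1) where
  letr := fun i => Letr.bl _
  ex := by
    intro i F x hx
    obtain ⟨O, hO, hxO, h⟩ := Bl_iso hx
    refine ⟨O, hO, hxO, fun j hj y hy hyj => hj ?_⟩
    exact ULift.ext _ _ (Subtype.ext (h _ y hy hyj).2)
  sep := by
    intro i F x hx hcl
    obtain ⟨O, hO, hxO, h⟩ := Bl_iso hx
    obtain ⟨y, hyO, k, hk, hy⟩ := mem_closure_iff.1 hcl O hO hxO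
    refine hk ?_
    rw [(h k y hyO hy).2]
    exact i.down.2
  see := fun i F x hx => subset_closure ⟨i.down.1, i.down.2, hx⟩
  cl := fun i T x h => h.1
  mem := fun i T x h => h.2.1
  oth := by
    intro i T x h j hj
    rw [Set.eq_empty_iff_forall_notMem]
    intro y hy
    exact hj (ULift.ext _ _ (Subtype.ext (h.2.2 _ y hy).2))
  free := by
    intro i T x h
    rw [Set.eq_empty_iff_forall_notMem]
    rintro y ⟨k, hk, hy⟩
    refine hk ?_
    rw [(h.2.2 k y hy).2]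
    exact i.down.2
  card := by
    intro i T x h
    have h1 : Gb A T ⊆ {x} := by
      rintro y ⟨k, hk, hy⟩
      exact (h.2.2 k y hy).1
    refine (mk_le_mk_of_subset h1).trans ?_
    rw [mk_singleton]
    exact hc
  inv := fun i => BQ.inv _
  ne := fun i => hb _

/-- there are systems of size `l` over every infinite set of basic letters -/
def Dv (X : Type u) [TopologicalSpace X] (l : Cardinal.{u}) : Prop :=
  ∀ A : Set ℕ, A.Infinite → ∃ (I : Type u) (Φ : I → Set X → Set X) (Q : I → Set X → X → Prop),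
    #I = l ∧ Sys (fun _ : I => A) l Φ Q

theorem dv_of {A : Set ℕ} {I : Type u} {c l : Cardinal.{u}} {Φ : I → Set X → Set X} {Q : I → Set X → X → Prop}
    (h : Sys (fun _ : I => A) c Φ Q) (hc : c ≤ l) (hl : l ≤ #I) :
    ∃ (I : Type u) (Φ : I → Set X → Set X) (Q : I → Set X → X → Prop), #I = l ∧ Sys (fun _ : I => A) l Φ Q := by
  obtain ⟨p, hp⟩ := Cardinal.le_mk_iff_exists_set.1 hl
  exact ⟨p, _, _, hp, (h.mono hc).comp (g := Subtype.val) Subtype.val_injective⟩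

theorem exists_pieces {A : Set ℕ} (hA : A.Infinite) : ∃ A' : ℕ → Set ℕ, (∀ n, A' n ⊆ A) ∧ (∀ n, (A' n).Infinite) ∧
    ∀ n m, n ≠ m → Disjoint (A' n) (A' m) := by
  let e := hA.natEmbedding
  have he : ∀ a b : ℕ, (e a : ℕ) = e b → a = b := fun a b h => e.injective (Subtype.ext h)
  refine ⟨fun n => range fun k => (e (Nat.pair n k) : ℕ), ?_, ?_, ?_⟩
  · rintro n _ ⟨k, rfl⟩
    exact (e _).2
  · intro n
    refine Set.infinite_range_of_injective fun k l hkl => ?_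
    exact (Nat.pair_eq_pair.1 (he _ _ hkl)).2
  · intro n m hnm
    rw [Set.disjoint_left]
    rintro _ ⟨k, rfl⟩ ⟨l, hl⟩
    exact hnm (Nat.pair_eq_pair.1 (he _ _ hl)).1.symm

theorem dv_all [T2Space X] [CompactSpace X] (hX : CO X) (hE : Expand X)
    (hb : ∀ m : ℕ, ∃ (T : Set X) (x : X), PP (BQ m) T x) (l : Cardinal.{u}) (hl : ℵ₀ ≤ l) : Dv X l := by
  induction l using Cardinal.lt_wf.induction with
  | _ l ih =>
  intro A hA
  by_cases hl0 : l = ℵ₀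
  · have h1 : #(ULift.{u} A) = ℵ₀ := by
      have : Infinite A := hA.to_subtype
      simp
    refine dv_of (base_sys hb A (c := ℵ₀) one_lt_aleph0.le) hl ?_
    rw [h1, hl0]
  by_cases hpow : ∃ μ, μ < l ∧ ℵ₀ ≤ μ ∧ l ≤ 2 ^ μ
  · obtain ⟨μ, h1, h2, h3⟩ := hpow
    obtain ⟨I, Φ, Q, hI, hS⟩ := ih μ h1 h2 A hA
    obtain ⟨𝒜, h𝒜⟩ := exists_ind I (by rw [hI]; exact h2)
    obtain ⟨Φ', Q', hS', _⟩ := power hX hE hS (by rw [hI]; exact h2) hI.ge 𝒜 h𝒜
    refine dv_of hS' (by rw [hI]; exact h1.le) ?_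
    rw [mk_set, hI]
    exact h3
  have hpow2 : ∀ μ, μ < l → ℵ₀ ≤ μ → 2 ^ μ < l := by
    intro μ h1 h2
    by_contra h3
    exact hpow ⟨μ, h1, h2, not_lt.1 h3⟩
  obtain ⟨A', hA1, hA2, hA3⟩ := exists_pieces hA
  let C : Type u := Shrink.{u} (Set.Ico (ℵ₀ : Cardinal.{u}) l)
  let μ : C → Cardinal.{u} := fun t => ((equivShrink (Set.Ico (ℵ₀ : Cardinal.{u}) l)).symm t : Cardinal.{u})
  have hμmem : ∀ t, μ t ∈ Set.Ico (ℵ₀ : Cardinal.{u}) l := fun t => ((equivShrink _).symm t).2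
  have hμinj : Function.Injective μ := fun s t hst => (equivShrink _).symm.injective (Subtype.ext hst)
  have hμsurj : ∀ ν, ℵ₀ ≤ ν → ν < l → ∃ t, μ t = ν := by
    intro ν h1 h2
    refine ⟨equivShrink _ ⟨ν, h1, h2⟩, ?_⟩
    change ((equivShrink (Set.Ico (ℵ₀ : Cardinal.{u}) l)).symm (equivShrink _ ⟨ν, h1, h2⟩) : Cardinal.{u}) = ν
    rw [Equiv.symm_apply_apply]
  let L : C → Type u := fun t => (μ t).out
  have hL : ∀ t, #(L t) = μ t := fun t => mk_out _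
  have hex : ∀ (n : ℕ) (t : C), ∃ (Φ : L t → Set X → Set X) (Q : L t → Set X → X → Prop),
      Sys (fun _ : L t => A' n) (μ t) Φ Q ∧
        ∀ i F x, x ∈ Φ i F → ∀ O : Set X, IsOpen O → x ∈ O → μ t ≤ #(↥(Gb (A' n) F ∩ O)) := by
    intro n t
    obtain ⟨I, Φ, Q, hI, hS⟩ := ih (μ t) (hμmem t).2 (hμmem t).1 (A' n) (hA2 n)
    obtain ⟨𝒜, h𝒜⟩ := exists_ind I (by rw [hI]; exact (hμmem t).1)
    obtain ⟨Φ', Q', hS', hex'⟩ := power hX hE hS (by rw [hI]; exact (hμmem t).1) hI.ge 𝒜 h𝒜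
    have h1 : #(L t) ≤ #(Set I) := by
      rw [hL, mk_set, hI]
      exact (cantor _).le
    obtain ⟨g⟩ := h1
    rw [hI] at hS' hex'
    exact ⟨_, _, hS'.comp g.injective, fun i F x hx => hex' (g i) F x hx⟩
  choose Φ Q hS hexact using hex
  obtain ⟨Φ', Q', hS'⟩ := limit_step A' Φ Q hX hE hμinj (fun t => (hμmem t).1) (fun t => (hμmem t).2.le) hA1 hA3 hS
    hexact
  refine dv_of hS' le_rfl ?_
  have hsig : ∀ t, μ t ≤ #(Σ t, L t) := by
    intro t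
    rw [← hL t]
    exact mk_le_of_injective (f := fun i : L t => (⟨t, i⟩ : Σ t, L t)) sigma_mk_injective
  by_contra hcon
  have hlt := not_le.1 hcon
  obtain ⟨t0, ht0⟩ := hμsurj ℵ₀ le_rfl (lt_of_le_of_ne hl fun h => hl0 h.symm)
  have hinf : ℵ₀ ≤ #(Σ t, L t) := by
    rw [← ht0]
    exact hsig t0
  obtain ⟨t1, ht1⟩ := hμsurj (2 ^ #(Σ t, L t)) (hinf.trans (cantor _).le) (hpow2 _ hlt hinf)
  have h2 := hsig t1
  rw [ht1] at h2
  exact absurd h2 (not_le.2 (cantor _))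

/-- the main contradiction -/
theorem no_good [T2Space X] [CompactSpace X] (hX : CO X) (hE : Expand X) {K : Set X} (hK : Good K)
    (hne : K.Nonempty) : False := by
  obtain ⟨I, Φ, Q, hI, hS⟩ := dv_all hX hE (base_ne hK hne) (ℵ₀ + 2 ^ #X) (self_le_add_right _ _) univ
    Set.infinite_univ
  have h1 := hS.card_le hX
  rw [hI] at h1
  have h2 : 2 ^ #X ≤ ℵ₀ + 2 ^ #X := self_le_add_left _ _
  exact absurd (h2.trans h1) (not_le.2 (cantor #X))

end Pool.Agent.Lib.MP_77266e_gtM
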