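import Pool.Agent.Lib.MP_77266e_gtM.Mono

/-!
# Conclusions
-/

namespace Pool.Agent.Lib.MP_77266e_gtM

open Set Filter Topology Cardinal

universe u

variable {X : Type u} [TopologicalSpace X]

theorem HCH.expand [CompletelyNormalSpace X] (h : HCH X) : Expand X := by
  intro S hS
  obtain ⟨U, hU, hdis⟩ := h S hS
  let C : Set X := {y | y ∉ closure S ∧ ∀ x ∈ S, y ∉ U x}
  have hC : Disjoint S (closure C) := by
    rw [Set.disjoint_left]
    intro x hx hxC
    obtain ⟨y, hy1, hy2⟩ := mem_closure_iff.1 hxC (U x) (hU x hx).1 (hU x hx).2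
    exact hy2.2 x hx hy1
  have hC2 : Disjoint (closure S) C := by
    rw [Set.disjoint_left]
    exact fun x hx hxC => hxC.1 hx
  obtain ⟨W, W', hW, hW', hSW, hCW, hWW⟩ := separatedNhds_iff_disjoint.2 (completely_normal hC2 hC)
  refine ⟨fun x => U x ∩ W, fun x hx => ⟨(hU x hx).1.inter hW, (hU x hx).2, hSW hx⟩, fun y hy => ?_⟩
  by_cases h1 : ∃ a ∈ S, y ∈ U a
  · obtain ⟨a, ha, hya⟩ := h1
    have h2 : ∀ b ∈ S, (U a ∩ (U b ∩ W)).Nonempty → b = a := by
      rintro b hb ⟨w, hw1, hw2, _⟩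
      by_contra hne
      exact Set.disjoint_left.1 (hdis b hb a ha hne) hw2 hw1
    refine ⟨U a, (hU a ha).1, hya, fun b hb c hc hB hC => ?_⟩
    rw [h2 b hb hB, h2 c hc hC]
  · have hyC : y ∈ C := by
      refine ⟨fun h2 => ?_, fun x hx h2 => h1 ⟨x, hx, h2⟩⟩
      exact h1 ⟨y, hy h2, (hU y (hy h2)).2⟩
    refine ⟨W', hW', hCW hyC, ?_⟩
    rintro a _ b _ ⟨w, hw1, _, hw2⟩
    exact absurd hw1 (Set.disjoint_left.1 hWW hw2)

theorem crowded_infinite [T1Space X] {C : Set X} (h : Crowded C) (hne : C.Nonempty) : C.Infinite := by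
  intro hfin
  obtain ⟨x, hx⟩ := hne
  have h1 := h x hx
  rw [(hfin.subset sdiff_subset).isClosed.closure_eq] at h1
  exact h1.2 rfl

theorem good_of_cs [T2Space X] [CompactSpace X] (hE : Expand X) {K : Set X} (hK : IsClosed K) (hc : Crowded K)
    (hcs : ∀ C : Set X, C ⊆ K → IsClosed C → C.Infinite → ∃ (s : ℕ → X) (p : X), (∀ n, s n ∈ C ∧ s n ≠ p) ∧
      Tendsto s atTop (𝓝 p)) : Good K := by
  refine ⟨hK, hc, fun V hV hVK => ?_⟩
  obtain ⟨C, hC1, hC2, hC3, hC4⟩ := exists_crowded hK hc hV hVK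
  obtain ⟨s, p, hs, hsp⟩ := hcs C (fun x hx => (hC2 hx).2) hC1 (crowded_infinite hC4 hC3)
  have hpC : p ∈ C := hC1.mem_of_tendsto hsp (Eventually.of_forall fun n => (hs n).1)
  -- only finitely many terms are far from `p`
  have hfar : ∀ N : Set X, IsOpen N → p ∈ N → (range s \ N).Finite := by
    intro N hN hpN
    obtain ⟨M, hM⟩ := eventually_atTop.1 (hsp.eventually (hN.mem_nhds hpN))
    refine ((Set.finite_lt_nat M).image s).subset ?_
    rintro _ ⟨⟨n, rfl⟩, hn⟩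
    refine ⟨n, ?_, rfl⟩
    by_contra h1
    exact hn (hM n (not_lt.1 h1))
  have hpS : p ∉ range s := by
    rintro ⟨n, hn⟩
    exact (hs n).2 hn
  have hSinf : (range s).Infinite := by
    intro hfin
    refine hpS ?_
    rw [← hfin.isClosed.closure_eq]
    exact mem_closure_of_tendsto hsp (Eventually.of_forall fun n => mem_range_self n)
  have hcl : ∀ y, y ≠ p → (y ∈ closure (range s) → y ∈ range s) := by
    intro y hy hyc
    have h1 : IsClosed (insert p (range s)) := hsp.isCompact_insert_range.isClosed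
    rcases closure_minimal (Set.subset_insert p (range s)) h1 hyc with h2 | h2
    · exact absurd h2 hy
    · exact h2
  have hdisc : ∀ x ∈ range s, ∃ U : Set X, IsOpen U ∧ U ∩ range s = {x} := by
    intro x hx
    have hxp : x ≠ p := by
      rintro rfl
      exact hpS hx
    obtain ⟨a, b, ha, hb, hxa, hpb, hab⟩ := t2_separation hxp
    have hfin : ((range s \ b) \ {x}).Finite := (hfar b hb hpb).subset sdiff_subset
    refine ⟨a ∩ ((range s \ b) \ {x})ᶜ, ha.inter hfin.isClosed.isOpen_compl, ?_⟩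
    ext y
    constructor
    · rintro ⟨⟨hy1, hy2⟩, hy3⟩
      by_contra hyx
      exact hy2 ⟨⟨hy3, Set.disjoint_left.1 hab hy1⟩, hyx⟩
    · intro hy
      have hy2 : y = x := hy
      rw [hy2]
      exact ⟨⟨hxa, fun h1 => h1.2 rfl⟩, hx⟩
  obtain ⟨V', hV', hdd⟩ := hE (range s) hdisc
  let e := hSinf.natEmbedding
  have heS : ∀ k, (e k : X) ∈ range s := fun k => (e k).2
  have heinj : ∀ k l, (e k : X) = e l → k = l := fun k l h => e.injective (Subtype.ext h)
  have hep : ∀ k, (e k : X) ≠ p := by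
    intro k h1
    exact hpS (h1 ▸ heS k)
  have hrC : ∀ k, (e k : X) ∈ V ∩ K := by
    intro k
    obtain ⟨n, hn⟩ := heS k
    rw [← hn]
    exact hC2 (hs n).1
  refine ⟨p, hC2 hpC, fun k => V' (e k) ∩ V ∩ {p}ᶜ, fun k => ((hV' _ (heS k)).1.inter hV).inter isOpen_compl_singleton,
    fun k y hy => hy.1.2, fun k hk => hk.2 rfl, ?_, ?_, ?_⟩
  · intro k l hkl
    rw [Set.disjoint_left]
    rintro y ⟨⟨h1, _⟩, h2⟩ ⟨⟨h3, _⟩, _⟩
    obtain ⟨N, hN, hyN, hNN⟩ := hdd y (hcl y h2)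
    exact hkl (heinj k l (hNN _ (heS k) _ (heS l) ⟨y, hyN, h1⟩ ⟨y, hyN, h3⟩))
  · intro k
    exact ⟨e k, ⟨⟨(hV' _ (heS k)).2, (hrC k).1⟩, hep k⟩, (hrC k).2⟩
  · intro N hN hpN
    have hfin : {k | ((V' (e k) ∩ V ∩ {p}ᶜ) ∩ Nᶜ).Nonempty}.Finite := by
      refine IsCompact.induction_on (p := fun T => {k | ((V' (e k) ∩ V ∩ {p}ᶜ) ∩ T).Nonempty}.Finite)
        hN.isClosed_compl.isCompact ?_ ?_ ?_ ?_
      · refine Set.finite_empty.subset ?_
        rintro k ⟨y, hy⟩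
        exact hy.2
      · intro T T' hTT hT'
        refine hT'.subset ?_
        rintro k ⟨y, hy⟩
        exact ⟨y, hy.1, hTT hy.2⟩
      · intro T T' hT hT'
        refine (hT.union hT').subset ?_
        rintro k ⟨y, hy, hy2 | hy2⟩
        · exact Or.inl ⟨y, hy, hy2⟩
        · exact Or.inr ⟨y, hy, hy2⟩
      · intro y hy
        have hyp : y ≠ p := by
          rintro rfl
          exact hy hpN
        obtain ⟨N', hN', hyN, hNN⟩ := hdd y (hcl y hyp)
        refine ⟨N', mem_nhdsWithin_of_mem_nhds (hN'.mem_nhds hyN), ?_⟩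
        refine Set.Subsingleton.finite ?_
        rintro k ⟨y1, ⟨⟨h1, _⟩, _⟩, h2⟩ l ⟨y2, ⟨⟨h3, _⟩, _⟩, h4⟩
        exact heinj k l (hNN _ (heS k) _ (heS l) ⟨y1, h2, h1⟩ ⟨y2, h4, h3⟩)
    obtain ⟨M, hM⟩ := hfin.bddAbove
    refine eventually_atTop.2 ⟨M + 1, fun k hk y hy => ?_⟩
    by_contra hyN
    have h1 : k ≤ M := hM ⟨y, hy.1, hyN⟩
    omega

theorem exists_crowded_of [T1Space X] (h : ¬ Scattered X) : ∃ K : Set X, IsClosed K ∧ Crowded K ∧ K.Nonempty := by
  unfold Scattered at h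
  push Not at h
  obtain ⟨S, hS, h1⟩ := h
  refine ⟨closure S, isClosed_closure, Crowded.closure ?_, hS.closure⟩
  intro x hx
  rw [mem_closure_iff]
  intro O hO hxO
  by_contra hcon
  refine h1 x hx O hO ?_
  ext y
  constructor
  · rintro ⟨hy1, hy2⟩
    by_contra hyx
    exact hcon ⟨y, hy1, hy2, hyx⟩
  · intro hy
    have hy2 : y = x := hy
    rw [hy2]
    exact ⟨hxO, hx⟩

theorem no_crowded [T2Space X] [CompactSpace X] (hX : CO X) (hE : Expand X) {K : Set X} (hK : IsClosed K)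
    (hc : Crowded K) (hne : K.Nonempty) : ∃ C : Set X, C ⊆ K ∧ IsClosed C ∧ C.Infinite ∧
      ¬ ∃ (s : ℕ → X) (p : X), (∀ n, s n ∈ C ∧ s n ≠ p) ∧ Tendsto s atTop (𝓝 p) := by
  by_contra hcon
  push Not at hcon
  refine no_good hX hE (good_of_cs hE hK hc fun C h1 h2 h3 => ?_) hne
  obtain ⟨s, p, h4, h5⟩ := hcon C h1 h2 h3
  exact ⟨s, p, h4, h5⟩

theorem scattered_of_seq [T2Space X] [CompactSpace X] (hX : CO X) (hT : CompletelyNormalSpace X) (hH : HCH X)
    (hcs : ∀ F : Set X, IsClosed F → F.Infinite → ∃ (s : ℕ → X) (p : X), (∀ n, s n ∈ F ∧ s n ≠ p) ∧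
      Tendsto s atTop (𝓝 p)) : Scattered X := by
  by_contra h
  obtain ⟨K, h1, h2, h3⟩ := exists_crowded_of h
  obtain ⟨C, h4, h5, h6, h7⟩ := no_crowded hX hH.expand h1 h2 h3
  exact h7 (hcs C h5 h6)

theorem scattered_of_monNormal [T2Space X] [CompactSpace X] (hX : CO X) (hM : MonNormal X) : Scattered X := by
  by_contra h
  obtain ⟨K, h1, h2, h3⟩ := exists_crowded_of h
  obtain ⟨C, h4, h5, h6, h7⟩ := no_crowded hX hM.expand h1 h2 h3
  exact h7 (hM.seq h5 h6)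

end Pool.Agent.Lib.MP_77266e_gtM
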