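import Pool.Agent.Lib.MP_77266e_gtM.Typ

/-!
# Local topological invariants of subsets: letters
-/

namespace Pool.Agent.Lib.MP_77266e_gtM

open Set Filter Topology Cardinal

universe u

variable {X : Type u} [TopologicalSpace X]

/-- a local topological invariant: it selects for each subset `F` some of its points, this only depends on the
neighbourhoods of the point in `F` -/
structure Letr (Ψ : Set X → Set X) : Prop where
  sub : ∀ F, Ψ F ⊆ F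
  loc : ∀ (F O : Set X) (x : X), IsOpen O → x ∈ O → (x ∈ Ψ (F ∩ O) ↔ x ∈ Ψ F)
  inv : ∀ (F : Set X) (f : F → X), IsEmbedding f → ∀ x : F, ((x : X) ∈ Ψ F ↔ f x ∈ Ψ (range f))

theorem Letr.self : Letr (fun F : Set X => F) where
  sub := fun _ => Subset.rfl
  loc := fun _ _ _ _ hx => ⟨fun h => h.1, fun h => ⟨h, hx⟩⟩
  inv := fun _ _ _ x => ⟨fun _ => mem_range_self x, fun _ => x.2⟩

theorem Letr.not {Ψ : Set X → Set X} (h : Letr Ψ) : Letr (fun F => {x | x ∈ F ∧ x ∉ Ψ F}) where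
  sub := fun _ _ hx => hx.1
  loc := by
    intro F O x hO hx
    constructor
    · rintro ⟨h1, h2⟩
      exact ⟨h1.1, fun h3 => h2 ((h.loc F O x hO hx).2 h3)⟩
    · rintro ⟨h1, h2⟩
      exact ⟨⟨h1, hx⟩, fun h3 => h2 ((h.loc F O x hO hx).1 h3)⟩
  inv := by
    intro F f hf x
    constructor
    · rintro ⟨_, h2⟩
      exact ⟨mem_range_self x, fun h3 => h2 ((h.inv F f hf x).2 h3)⟩
    · rintro ⟨_, h2⟩
      exact ⟨x.2, fun h3 => h2 ((h.inv F f hf x).1 h3)⟩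

theorem Letr.all {κ : Sort*} {Ψ : κ → Set X → Set X} (h : ∀ k, Letr (Ψ k)) :
    Letr (fun F => {x | x ∈ F ∧ ∀ k, x ∈ Ψ k F}) where
  sub := fun _ _ hx => hx.1
  loc := by
    intro F O x hO hx
    constructor
    · rintro ⟨h1, h2⟩
      exact ⟨h1.1, fun k => ((h k).loc F O x hO hx).1 (h2 k)⟩
    · rintro ⟨h1, h2⟩
      exact ⟨⟨h1, hx⟩, fun k => ((h k).loc F O x hO hx).2 (h2 k)⟩
  inv := by
    intro F f hf x
    constructor
    · rintro ⟨_, h2⟩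
      exact ⟨mem_range_self x, fun k => ((h k).inv F f hf x).1 (h2 k)⟩
    · rintro ⟨_, h2⟩
      exact ⟨x.2, fun k => ((h k).inv F f hf x).2 (h2 k)⟩

theorem Letr.any {κ : Sort*} {Ψ : κ → Set X → Set X} (h : ∀ k, Letr (Ψ k)) :
    Letr (fun F => {x | ∃ k, x ∈ Ψ k F}) where
  sub := fun F _ ⟨k, hk⟩ => (h k).sub F hk
  loc := by
    intro F O x hO hx
    constructor
    · rintro ⟨k, hk⟩
      exact ⟨k, ((h k).loc F O x hO hx).1 hk⟩
    · rintro ⟨k, hk⟩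
      exact ⟨k, ((h k).loc F O x hO hx).2 hk⟩
  inv := by
    intro F f hf x
    constructor
    · rintro ⟨k, hk⟩
      exact ⟨k, ((h k).inv F f hf x).1 hk⟩
    · rintro ⟨k, hk⟩
      exact ⟨k, ((h k).inv F f hf x).2 hk⟩

theorem Letr.and {Ψ Ψ' : Set X → Set X} (h : Letr Ψ) (h' : Letr Ψ') : Letr (fun F => {x | x ∈ Ψ F ∧ x ∈ Ψ' F}) where
  sub := fun F _ hx => h.sub F hx.1
  loc := by
    intro F O x hO hx
    exact and_congr (h.loc F O x hO hx) (h'.loc F O x hO hx)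
  inv := by
    intro F f hf x
    exact and_congr (h.inv F f hf x) (h'.inv F f hf x)

theorem Letr.any_mem {κ : Type*} {Ψ : κ → Set X → Set X} (h : ∀ k, Letr (Ψ k)) (S : Set κ) :
    Letr (fun F => {x | ∃ k ∈ S, x ∈ Ψ k F}) where
  sub := fun F _ ⟨k, _, hk⟩ => (h k).sub F hk
  loc := by
    intro F O x hO hx
    constructor
    · rintro ⟨k, hkS, hk⟩
      exact ⟨k, hkS, ((h k).loc F O x hO hx).1 hk⟩
    · rintro ⟨k, hkS, hk⟩
      exact ⟨k, hkS, ((h k).loc F O x hO hx).2 hk⟩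
  inv := by
    intro F f hf x
    constructor
    · rintro ⟨k, hkS, hk⟩
      exact ⟨k, hkS, ((h k).inv F f hf x).1 hk⟩
    · rintro ⟨k, hkS, hk⟩
      exact ⟨k, hkS, ((h k).inv F f hf x).2 hk⟩

/-- corresponding open sets -/
theorem exists_open_right {F : Set X} {f : F → X} (hf : IsEmbedding f) {O : Set X} (hO : IsOpen O) :
    ∃ O' : Set X, IsOpen O' ∧ ∀ y : F, f y ∈ O' ↔ (y : X) ∈ O := by
  obtain ⟨O', hO', h⟩ := hf.isInducing.isOpen_iff.1 (hO.preimage (continuous_subtype_val (p := fun x => x ∈ F)))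
  refine ⟨O', hO', fun y => ?_⟩
  change y ∈ f ⁻¹' O' ↔ _
  rw [h]
  exact Iff.rfl

theorem exists_open_left {F : Set X} {f : F → X} (hf : IsEmbedding f) {O' : Set X} (hO' : IsOpen O') :
    ∃ O : Set X, IsOpen O ∧ ∀ y : F, f y ∈ O' ↔ (y : X) ∈ O := by
  obtain ⟨O, hO, h⟩ := isOpen_induced_iff.1 (hO'.preimage hf.continuous)
  refine ⟨O, hO, fun y => ?_⟩
  change y ∈ f ⁻¹' O' ↔ _
  rw [← h]
  exact Iff.rfl

theorem Letr.card_eq {Ψ : Set X → Set X} (h : Letr Ψ) {F : Set X} {f : F → X} (hf : IsEmbedding f) {O O' : Set X}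
    (hO : ∀ y : F, f y ∈ O' ↔ (y : X) ∈ O) : #(↥(Ψ (range f) ∩ O')) = #(↥(Ψ F ∩ O)) := by
  have h1 : Ψ F ∩ O = (↑) '' {y : F | (y : X) ∈ Ψ F ∧ (y : X) ∈ O} := by
    ext x
    constructor
    · rintro ⟨hx1, hx2⟩
      exact ⟨⟨x, h.sub F hx1⟩, ⟨hx1, hx2⟩, rfl⟩
    · rintro ⟨y, hy, rfl⟩
      exact hy
  have h2 : Ψ (range f) ∩ O' = f '' {y : F | (y : X) ∈ Ψ F ∧ (y : X) ∈ O} := by
    ext x
    constructor
    · rintro ⟨hx1, hx2⟩
      obtain ⟨y, rfl⟩ := h.sub _ hx1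
      exact ⟨y, ⟨(h.inv F f hf y).2 hx1, (hO y).1 hx2⟩, rfl⟩
    · rintro ⟨y, hy, rfl⟩
      exact ⟨(h.inv F f hf y).1 hy.1, (hO y).2 hy.2⟩
  rw [h1, h2, mk_image_eq hf.injective, mk_image_eq Subtype.val_injective]

/-- letters defined by local cardinalities -/
theorem Letr.nb {κ : Sort*} {Ψ : κ → Set X → Set X} (h : ∀ k, Letr (Ψ k)) (Q : κ → Cardinal.{u} → Prop)
    (hQ : ∀ k a b, a ≤ b → Q k b → Q k a) :
    Letr (fun F => {x | x ∈ F ∧ ∃ O, IsOpen O ∧ x ∈ O ∧ ∀ k, Q k #(↥(Ψ k F ∩ O))}) where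
  sub := fun _ _ hx => hx.1
  loc := by
    intro F O x hO hx
    have key : ∀ (k : κ) (N : Set X), Ψ k (F ∩ O) ∩ N = Ψ k F ∩ (N ∩ O) := by
      intro k N
      ext y
      constructor
      · rintro ⟨h1, h2⟩
        have hyO := ((h k).sub _ h1).2
        exact ⟨((h k).loc F O y hO hyO).1 h1, h2, hyO⟩
      · rintro ⟨h1, h2, h3⟩
        exact ⟨((h k).loc F O y hO h3).2 h1, h2⟩
    constructor
    · rintro ⟨h1, N, hN, hxN, hk⟩
      refine ⟨h1.1, N ∩ O, hN.inter hO, ⟨hxN, hx⟩, fun k => ?_⟩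
      rw [← key]
      exact hk k
    · rintro ⟨h1, N, hN, hxN, hk⟩
      refine ⟨⟨h1, hx⟩, N, hN, hxN, fun k => ?_⟩
      rw [key]
      exact hQ k _ _ (mk_le_mk_of_subset (inter_subset_inter_right _ inter_subset_left)) (hk k)
  inv := by
    intro F f hf x
    constructor
    · rintro ⟨_, N, hN, hxN, hk⟩
      obtain ⟨N', hN', hNN⟩ := exists_open_right hf hN
      refine ⟨mem_range_self x, N', hN', (hNN x).2 hxN, fun k => ?_⟩
      rw [(h k).card_eq hf hNN]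
      exact hk k
    · rintro ⟨_, N', hN', hxN, hk⟩
      obtain ⟨N, hN, hNN⟩ := exists_open_left hf hN'
      refine ⟨x.2, N, hN, (hNN x).1 hxN, fun k => ?_⟩
      rw [← (h k).card_eq hf hNN]
      exact hk k

theorem Letr.congr {Ψ Ψ' : Set X → Set X} (h : Letr Ψ) (hh : ∀ F x, x ∈ Ψ' F ↔ x ∈ Ψ F) : Letr Ψ' := by
  have h1 : Ψ' = Ψ := by
    funext F
    ext x
    exact hh F x
  rw [h1]
  exact h

/-- the points of `F` which are not in the closure of the letter set -/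
theorem Letr.far {Ψ : Set X → Set X} (h : Letr Ψ) : Letr (fun F => {x | x ∈ F ∧ x ∉ closure (Ψ F)}) := by
  refine (Letr.nb (κ := Unit) (fun _ => h) (fun _ a => a ≤ 0) fun _ a b hab hb => hab.trans hb).congr ?_
  intro F x
  change (x ∈ F ∧ x ∉ closure (Ψ F)) ↔ (x ∈ F ∧ ∃ O, IsOpen O ∧ x ∈ O ∧ ∀ _ : Unit, #(↥(Ψ F ∩ O)) ≤ 0)
  refine and_congr Iff.rfl ?_
  constructor
  · intro h1
    refine ⟨(closure (Ψ F))ᶜ, isClosed_closure.isOpen_compl, h1, fun _ => ?_⟩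
    rw [nonpos_iff_eq_zero, mk_set_eq_zero_iff, Set.eq_empty_iff_forall_notMem]
    rintro y ⟨hy1, hy2⟩
    exact hy2 (subset_closure hy1)
  · rintro ⟨O, hO, hxO, h1⟩ h2
    have h3 := h1 ()
    rw [nonpos_iff_eq_zero, mk_set_eq_zero_iff, Set.eq_empty_iff_forall_notMem] at h3
    obtain ⟨y, hy1, hy2⟩ := mem_closure_iff.1 h2 O hO hxO
    exact h3 y ⟨hy2, hy1⟩

theorem Letr.near {Ψ : Set X → Set X} (h : Letr Ψ) : Letr (fun F => {x | x ∈ F ∧ x ∈ closure (Ψ F)}) := by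
  refine (h.far.not).congr ?_
  intro F x
  change (x ∈ F ∧ x ∈ closure (Ψ F)) ↔ (x ∈ F ∧ ¬ (x ∈ F ∧ x ∉ closure (Ψ F)))
  tauto

/-- the basic letters -/
def Bl (m : ℕ) (F : Set X) : Set X :=
  {x | Lt F m x ∧ ∃ O : Set X, IsOpen O ∧ x ∈ O ∧ ∀ k y, y ∈ O → Lt F k y → y = x ∧ k = m}

theorem Lt_range {F : Set X} {f : F → X} (hf : IsEmbedding f) (n : ℕ) (x : F) :
    Lt F n (x : X) ↔ Lt (range f) n (f x) := by
  have h1 : Lt (Subtype.val '' (univ : Set F)) n (x : X) ↔ Lt (univ : Set F) n x :=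
    Lt_image IsEmbedding.subtypeVal univ n x
  rw [image_univ, Subtype.range_coe] at h1
  have h2 : Lt (f '' (univ : Set F)) n (f x) ↔ Lt (univ : Set F) n x := Lt_image hf univ n x
  rw [image_univ] at h2
  rw [h1, h2]

theorem Lt_mem {F : Set X} {n : ℕ} {x : X} (h : Lt F n x) : x ∈ F := D_subset _ _ h.1

theorem Letr.bl (m : ℕ) : Letr (Bl m : Set X → Set X) where
  sub := fun _ _ hx => Lt_mem hx.1
  loc := by
    intro F O x hO hx
    constructor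
    · rintro ⟨h1, N, hN, hxN, hk⟩
      refine ⟨(Lt_inter_open hO m hx).1 h1, N ∩ O, hN.inter hO, ⟨hxN, hx⟩, fun k y hy hL => ?_⟩
      exact hk k y hy.1 ((Lt_inter_open hO k hy.2).2 hL)
    · rintro ⟨h1, N, hN, hxN, hk⟩
      refine ⟨(Lt_inter_open hO m hx).2 h1, N, hN, hxN, fun k y hy hL => ?_⟩
      exact hk k y hy ((Lt_inter_open hO k (Lt_mem hL).2).1 hL)
  inv := by
    intro F f hf x
    constructor
    · rintro ⟨h1, N, hN, hxN, hk⟩
      obtain ⟨N', hN', hNN⟩ := exists_open_right hf hN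
      refine ⟨(Lt_range hf m x).1 h1, N', hN', (hNN x).2 hxN, fun k y hy hL => ?_⟩
      obtain ⟨z, rfl⟩ := Lt_mem hL
      obtain ⟨h2, h3⟩ := hk k z ((hNN z).1 hy) ((Lt_range hf k z).2 hL)
      exact ⟨by rw [Subtype.ext h2], h3⟩
    · rintro ⟨h1, N', hN', hxN, hk⟩
      obtain ⟨N, hN, hNN⟩ := exists_open_left hf hN'
      refine ⟨(Lt_range hf m x).2 h1, N, hN, (hNN x).1 hxN, fun k y hy hL => ?_⟩
      have hyF := Lt_mem hL
      obtain ⟨h2, h3⟩ := hk k (f ⟨y, hyF⟩) ((hNN ⟨y, hyF⟩).2 hy) ((Lt_range hf k ⟨y, hyF⟩).1 hL)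
      exact ⟨congrArg Subtype.val (hf.injective h2), h3⟩

theorem Bl_iso {m : ℕ} {F : Set X} {x : X} (hx : x ∈ Bl m F) :
    ∃ O : Set X, IsOpen O ∧ x ∈ O ∧ ∀ k y, y ∈ O → y ∈ Bl k F → y = x ∧ k = m := by
  obtain ⟨_, O, hO, hxO, h⟩ := hx
  exact ⟨O, hO, hxO, fun k y hy hyk => h k y hy hyk.1⟩

/-- all basic letters with numbers in `A` -/
def Gb (A : Set ℕ) (F : Set X) : Set X := {x | ∃ m ∈ A, x ∈ Bl m F}

theorem Letr.gb (A : Set ℕ) : Letr (Gb A : Set X → Set X) := Letr.any_mem Letr.bl A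

theorem Gb_mono {A B : Set ℕ} (h : A ⊆ B) (F : Set X) : Gb A F ⊆ Gb B F := fun _ ⟨m, hm, hx⟩ => ⟨m, h hm, hx⟩

end Pool.Agent.Lib.MP_77266e_gtM
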