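import Mathlib

/-!
# Cantor-Bendixson levels of subsets, letters

`D F n` is the `n`-th Cantor-Bendixson derivative of the set `F`, `J F n` the set of isolated points of `D F n`.
`Lt F n q`: the point `q` is in `D F (n + 1)`, in the closure of `J F n` and not in the closure of `J F (n + 1)`.
-/

namespace Pool.Agent.Lib.MP_77266e_gtM

open Set Filter Topology

universe u v

variable {X : Type u} [TopologicalSpace X]

/-- the Cantor-Bendixson derivatives of a set -/
def D (F : Set X) : ℕ → Set X
  | 0 => F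
  | n + 1 => {x | x ∈ D F n ∧ x ∈ closure (D F n \ {x})}

/-- the isolated points of the `n`-th derivative -/
def J (F : Set X) (n : ℕ) : Set X := D F n \ D F (n + 1)

/-- the local index of the point `q` is exactly `n + 1`, although `q` is not scattered -/
def Lt (F : Set X) (n : ℕ) (q : X) : Prop :=
  q ∈ D F (n + 1) ∧ q ∈ closure (J F n) ∧ q ∉ closure (J F (n + 1))

theorem D_zero (F : Set X) : D F 0 = F := rfl

theorem mem_D_succ (F : Set X) (n : ℕ) (x : X) : x ∈ D F (n + 1) ↔ x ∈ D F n ∧ x ∈ closure (D F n \ {x}) := Iff.rfl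

theorem D_succ_subset (F : Set X) (n : ℕ) : D F (n + 1) ⊆ D F n := fun _ hx => hx.1

theorem D_anti (F : Set X) {m n : ℕ} (h : m ≤ n) : D F n ⊆ D F m := by
  induction n, h using Nat.le_induction with
  | base => exact Subset.rfl
  | succ n _ ih => exact (D_succ_subset F n).trans ih

theorem D_subset (F : Set X) (n : ℕ) : D F n ⊆ F := D_anti F (Nat.zero_le n)

theorem J_subset (F : Set X) (n : ℕ) : J F n ⊆ D F n := sdiff_subset

theorem mem_closure_inter_open {O A : Set X} (hO : IsOpen O) {x : X} (hx : x ∈ O) :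
    x ∈ closure (A ∩ O) ↔ x ∈ closure A := by
  constructor
  · exact fun h => closure_mono inter_subset_left h
  · intro h
    have h1 := hO.inter_closure (t := A) ⟨hx, h⟩
    rw [inter_comm] at h1
    exact h1

theorem D_inter_open {F O : Set X} (hO : IsOpen O) (n : ℕ) : D (F ∩ O) n = D F n ∩ O := by
  induction n with
  | zero => rfl
  | succ n ih =>
    ext x
    rw [mem_D_succ, ih]
    constructor
    · rintro ⟨⟨h1, h2⟩, h3⟩
      refine ⟨⟨h1, ?_⟩, h2⟩
      exact closure_mono (sdiff_subset_sdiff_left inter_subset_left) h3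
    · rintro ⟨⟨h1, h2⟩, h3⟩
      refine ⟨⟨h1, h3⟩, ?_⟩
      have h4 : (D F n ∩ O) \ {x} = (D F n \ {x}) ∩ O := by
        ext y
        simp only [Set.mem_sdiff, mem_inter_iff, mem_singleton_iff]
        tauto
      rw [h4, mem_closure_inter_open hO h3]
      exact h2

theorem J_inter_open {F O : Set X} (hO : IsOpen O) (n : ℕ) : J (F ∩ O) n = J F n ∩ O := by
  unfold J
  rw [D_inter_open hO, D_inter_open hO]
  ext y
  simp only [Set.mem_sdiff, mem_inter_iff]
  tauto

theorem Lt_inter_open {F O : Set X} (hO : IsOpen O) (n : ℕ) {q : X} (hq : q ∈ O) :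
    Lt (F ∩ O) n q ↔ Lt F n q := by
  unfold Lt
  rw [D_inter_open hO, J_inter_open hO, J_inter_open hO, mem_closure_inter_open hO hq,
    mem_closure_inter_open hO hq]
  constructor
  · rintro ⟨h1, h2⟩
    exact ⟨h1.1, h2⟩
  · rintro ⟨h1, h2⟩
    exact ⟨⟨h1, hq⟩, h2⟩

theorem mem_closure_image {Y : Type v} [TopologicalSpace Y] {f : Y → X} (hf : IsEmbedding f) (A : Set Y) (y : Y) :
    f y ∈ closure (f '' A) ↔ y ∈ closure A := by
  rw [hf.isInducing.closure_eq_preimage_closure_image, mem_preimage]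

omit [TopologicalSpace X] in
theorem image_diff_point {Y : Type v} {f : Y → X} (hf : Function.Injective f) (A : Set Y) (y : Y) :
    (f '' A) \ {f y} = f '' (A \ {y}) := by
  rw [image_sdiff hf, image_singleton]

theorem D_image {Y : Type v} [TopologicalSpace Y] {f : Y → X} (hf : IsEmbedding f) (A : Set Y) (n : ℕ) :
    D (f '' A) n = f '' (D A n) := by
  induction n with
  | zero => rfl
  | succ n ih =>
    ext x
    rw [mem_D_succ, ih]
    constructor
    · rintro ⟨⟨y, hy, rfl⟩, h2⟩
      rw [image_diff_point hf.injective, mem_closure_image hf] at h2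
      exact ⟨y, ⟨hy, h2⟩, rfl⟩
    · rintro ⟨y, ⟨hy, h2⟩, rfl⟩
      refine ⟨⟨y, hy, rfl⟩, ?_⟩
      rw [image_diff_point hf.injective, mem_closure_image hf]
      exact h2

theorem J_image {Y : Type v} [TopologicalSpace Y] {f : Y → X} (hf : IsEmbedding f) (A : Set Y) (n : ℕ) :
    J (f '' A) n = f '' (J A n) := by
  unfold J
  rw [D_image hf, D_image hf, image_sdiff hf.injective]

theorem Lt_image {Y : Type v} [TopologicalSpace Y] {f : Y → X} (hf : IsEmbedding f) (A : Set Y) (n : ℕ) (y : Y) :
    Lt (f '' A) n (f y) ↔ Lt A n y := by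
  unfold Lt
  rw [D_image hf, J_image hf, J_image hf, mem_closure_image hf, mem_closure_image hf]
  constructor
  · rintro ⟨⟨z, hz, hzy⟩, h2⟩
    rw [hf.injective hzy] at hz
    exact ⟨hz, h2⟩
  · rintro ⟨h1, h2⟩
    exact ⟨⟨y, h1, rfl⟩, h2⟩

/-- an embedding of a subset with open range carries letters to letters of the whole space -/
theorem Lt_transfer {F : Set X} {φ : F → X} (hφ : IsEmbedding φ) (hU : IsOpen (range φ)) (n : ℕ) (x : F) :
    Lt F n (x : X) ↔ Lt (univ : Set X) n (φ x) := by
  have h1 : Lt (Subtype.val '' (univ : Set F)) n (x : X) ↔ Lt (univ : Set F) n x :=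
    Lt_image IsEmbedding.subtypeVal univ n x
  rw [image_univ, Subtype.range_coe] at h1
  have h2 : Lt (φ '' (univ : Set F)) n (φ x) ↔ Lt (univ : Set F) n x := Lt_image hφ univ n x
  rw [image_univ] at h2
  have h3 := Lt_inter_open (F := univ) hU n (mem_range_self x)
  rw [univ_inter] at h3
  rw [h1, ← h2, h3]

/-- a set without isolated points -/
def Crowded (Q : Set X) : Prop := ∀ x ∈ Q, x ∈ closure (Q \ {x})

theorem Crowded.D_eq {Q : Set X} (h : Crowded Q) (n : ℕ) : D Q n = Q := by
  induction n with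
  | zero => rfl
  | succ n ih =>
    ext x
    rw [mem_D_succ, ih]
    exact ⟨fun h1 => h1.1, fun h1 => ⟨h1, h x h1⟩⟩

theorem Crowded.J_eq {Q : Set X} (h : Crowded Q) (n : ℕ) : J Q n = ∅ := by
  unfold J
  rw [h.D_eq, h.D_eq, sdiff_self]

theorem Crowded.inter_open {Q O : Set X} (h : Crowded Q) (hO : IsOpen O) : Crowded (Q ∩ O) := by
  intro x hx
  have h1 : (Q ∩ O) \ {x} = (Q \ {x}) ∩ O := by
    ext y
    simp only [Set.mem_sdiff, mem_inter_iff, mem_singleton_iff]
    tauto
  rw [h1, mem_closure_inter_open hO hx.2]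
  exact h x hx.1

theorem Crowded.closure {Q : Set X} (h : Crowded Q) : Crowded (closure Q) := by
  intro x hx
  by_cases hxQ : x ∈ Q
  · exact closure_mono (sdiff_subset_sdiff_left subset_closure) (h x hxQ)
  · refine closure_mono ?_ hx
    intro y hy
    refine ⟨subset_closure hy, ?_⟩
    rintro rfl
    exact hxQ hy

theorem Crowded.image {Y : Type v} [TopologicalSpace Y] {f : Y → X} (hf : IsEmbedding f) {Q : Set Y} (h : Crowded Q) :
    Crowded (f '' Q) := by
  rintro _ ⟨y, hy, rfl⟩
  rw [image_diff_point hf.injective, mem_closure_image hf]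
  exact h y hy

theorem Crowded.preimage_val {F Q : Set X} (h : Crowded Q) (hQ : Q ⊆ F) : Crowded ((↑) ⁻¹' Q : Set F) := by
  intro x hx
  rw [← mem_closure_image IsEmbedding.subtypeVal, ← image_diff_point Subtype.val_injective,
    Subtype.image_preimage_coe, inter_eq_right.2 hQ]
  exact h x hx

theorem exists_crowded [RegularSpace X] {K O : Set X} (hK : IsClosed K) (hc : Crowded K) (hO : IsOpen O)
    (hne : (O ∩ K).Nonempty) : ∃ C : Set X, IsClosed C ∧ C ⊆ O ∩ K ∧ C.Nonempty ∧ Crowded C := by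
  obtain ⟨x, hxO, hxK⟩ := hne
  obtain ⟨G, hG, hxG, hGO⟩ : ∃ G : Set X, IsOpen G ∧ x ∈ G ∧ closure G ⊆ O := by
    obtain ⟨t, ht, htc, htO⟩ := exists_mem_nhds_isClosed_subset (hO.mem_nhds hxO)
    refine ⟨interior t, isOpen_interior, mem_interior_iff_mem_nhds.2 ht, ?_⟩
    exact (closure_minimal interior_subset htc).trans htO
  refine ⟨closure (K ∩ G), isClosed_closure, ?_, ⟨x, subset_closure ⟨hxK, hxG⟩⟩, (hc.inter_open hG).closure⟩
  intro y hy
  refine ⟨hGO (closure_mono inter_subset_right hy), ?_⟩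
  exact hK.closure_subset (closure_mono inter_subset_left hy)

end Pool.Agent.Lib.MP_77266e_gtM
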