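import Pool.Agent.Lib.MP_77266e_gtM.Step

/-!
# The limit step
-/

namespace Pool.Agent.Lib.MP_77266e_gtM

open Set Filter Topology Cardinal

universe u

variable {X : Type u} [TopologicalSpace X]

section

variable {C : Type u} {L : C → Type u} {μ : C → Cardinal.{u}} (A' : ℕ → Set ℕ)
  (Φ : ℕ → ∀ t, L t → Set X → Set X) (Q : ℕ → ∀ t, L t → Set X → X → Prop)

/-- for a fixed letter `i` of the systems number `t`, the copies of this letter form a system -/
theorem theta (hdis : ∀ n m, n ≠ m → Disjoint (A' n) (A' m))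
    (h : ∀ n t, Sys (fun _ : L t => A' n) (μ t) (Φ n t) (Q n t)) (t : C) (i : L t) :
    Sys (fun n : ULift.{u} ℕ => A' n.down) (μ t) (fun n => Φ n.down t i) (fun n => Q n.down t i) where
  letr := fun n => (h n.down t).letr i
  ex := by
    rintro ⟨n⟩ F x hx
    refine ⟨(closure (Gb (A' n)ᶜ F))ᶜ, isClosed_closure.isOpen_compl, (h n t).sep i F x hx, ?_⟩
    rintro ⟨m⟩ hm y hy hyΦ
    refine hy (closure_mono (Gb_mono ?_ F) ((h m t).see i F y hyΦ))
    exact (hdis m n fun h1 => hm (by rw [h1])).subset_compl_right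
  sep := fun n => (h n.down t).sep i
  see := fun n => (h n.down t).see i
  cl := fun n => (h n.down t).cl i
  mem := fun n => (h n.down t).mem i
  oth := by
    rintro ⟨n⟩ T x hQ ⟨m⟩ hm
    rw [Set.eq_empty_iff_forall_notMem]
    intro y hy
    have h1 := closure_mono (Gb_mono (hdis m n fun h1 => hm (by rw [h1])).subset_compl_right T)
      ((h m t).see i T y hy)
    rw [(h n t).free i T x hQ, closure_empty] at h1
    exact h1
  free := fun n => (h n.down t).free i
  card := fun n => (h n.down t).card i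
  inv := fun n => (h n.down t).inv i
  ne := fun n => (h n.down t).ne i

/-- the new letters of the limit step -/
def YY (μ : C → Cardinal.{u}) (a : Σ t, L t) (F : Set X) : Set X :=
  {x | x ∈ F ∧ (∀ N : ℕ, x ∈ closure {y | ∃ n ∈ {n | N ≤ n}, y ∈ Φ n a.1 a.2 F}) ∧
    ∃ (N : ℕ) (O : Set X), IsOpen O ∧ x ∈ O ∧ ∀ n : {n // N ≤ n}, #(↥(Gb (A' n.1) F ∩ O)) ≤ μ a.1}

theorem Letr.yy (hΦ : ∀ n t i, Letr (Φ n t i)) (a : Σ t, L t) : Letr (YY A' Φ μ a) := by
  have h1 := Letr.all (κ := ℕ) fun N => (Letr.any_mem (fun n => hΦ n a.1 a.2) {n | N ≤ n}).near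
  have h2 := Letr.any (κ := ℕ) fun N => Letr.nb (κ := {n // N ≤ n}) (fun n => Letr.gb (X := X) (A' n.1))
    (fun _ d => d ≤ μ a.1) fun _ d e hde he => hde.trans he
  refine (h1.and h2).congr ?_
  intro F x
  constructor
  · rintro ⟨h3, h4, N, O, hO, hxO, h5⟩
    exact ⟨⟨h3, fun N => ⟨h3, h4 N⟩⟩, N, h3, O, hO, hxO, h5⟩
  · rintro ⟨⟨h3, h4⟩, N, _, O, hO, hxO, h5⟩
    exact ⟨h3, fun N => (h4 N).2, N, O, hO, hxO, h5⟩

theorem limit_step [T2Space X] [CompactSpace X] (hX : CO X) (hE : Expand X) {l : Cardinal.{u}}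
    (hμ : Function.Injective μ) (hμ0 : ∀ t, ℵ₀ ≤ μ t) (hμl : ∀ t, μ t ≤ l) {A : Set ℕ} (hA : ∀ n, A' n ⊆ A)
    (hdis : ∀ n m, n ≠ m → Disjoint (A' n) (A' m))
    (h : ∀ n t, Sys (fun _ : L t => A' n) (μ t) (Φ n t) (Q n t))
    (hex : ∀ n t i F x, x ∈ Φ n t i F → ∀ O : Set X, IsOpen O → x ∈ O → μ t ≤ #(↥(Gb (A' n) F ∩ O))) :
    ∃ (Φ' : (Σ t, L t) → Set X → Set X) (Q' : (Σ t, L t) → Set X → X → Prop),
      Sys (fun _ : (Σ t, L t) => A) l Φ' Q' := by
  refine ⟨pur A (YY A' Φ μ), Std A l (pur A (YY A' Φ μ)),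
    sys_of_pre (fun a => Letr.yy A' Φ (fun n t i => (h n t).letr i) a) ?_ ?_⟩
  · intro a F x hx
    have h1 := hx.2.1 0
    have h2 : {y | ∃ n ∈ {n | 0 ≤ n}, y ∈ Φ n a.1 a.2 F} ⊆ closure (Gb A F) := by
      rintro y ⟨n, _, hy⟩
      exact closure_mono (Gb_mono (hA n) F) ((h n a.1).see a.2 F y hy)
    exact closure_minimal h2 isClosed_closure h1
  · rintro ⟨t, i⟩
    have hth := theta A' Φ Q hdis h t i
    obtain ⟨U, z, hU, hP, hz⟩ := hth.copies hX
    obtain ⟨x, hx⟩ : ∃ x : X, ∀ (N : ℕ) (O : Set X), IsOpen O → x ∈ O → ∃ n : ℕ, N ≤ n ∧ z ⟨n⟩ ∈ O := by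
      obtain ⟨x, hx⟩ := exists_clusterPt_of_compactSpace (map (fun n : ℕ => z ⟨n⟩) atTop)
      refine ⟨x, fun N O hO hxO => ?_⟩
      have h1 := mapClusterPt_iff_frequently.1 hx O (hO.mem_nhds hxO)
      obtain ⟨n, hn, hzn⟩ := frequently_atTop.1 h1 N
      exact ⟨n, hn, hzn⟩
    suffices hmain : ∃ T, PP (Std A l (YY A' Φ μ) ⟨t, i⟩) T x by
      obtain ⟨T, hT⟩ := hmain
      exact ⟨T, x, hT⟩
    refine exists_PP (Q' := Std A l (YY A' Φ μ) ⟨t, i⟩) (x := x) hE hth hU hz hP
      (fun J => ∀ (N : ℕ) (O : Set X), IsOpen O → x ∈ O → ∃ n : ℕ, N ≤ n ∧ (⟨n⟩ : ULift.{u} ℕ) ∈ J ∧ z ⟨n⟩ ∈ O)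
      univ ?_ ?_ ?_
    · intro N O hO hxO
      obtain ⟨n, h1, h2⟩ := hx N O hO hxO
      exact ⟨n, h1, trivial, h2⟩
    · intro J G hJ hG hxG N O hO hxO
      obtain ⟨n, h1, h2, h3⟩ := hJ N (O ∩ G) (hO.inter hG) ⟨hxO, hxG⟩
      exact ⟨n, h1, ⟨h2, h3.2⟩, h3.1⟩
    · intro J R hp hJ
      -- the number of basic letters
      have hcard : ∀ E : Set ℕ, #(Gb E (Un J R)) ≤ μ t := by
        intro E
        refine (hp.gb_card hth hU hz E).trans ?_
        have h1 : #(ULift.{u} ℕ) = ℵ₀ := by simp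
        rw [h1]
        exact (mul_le_mul_left (hμ0 t) _).trans (mul_eq_self (hμ0 t)).le
      -- the letters of the other systems are in the right pieces
      have hpos : ∀ (n : ℕ) (t' : C) (i' : L t') (w : X), w ∈ Φ n t' i' (Un J R) →
          (⟨n⟩ : ULift.{u} ℕ) ∈ J ∧ w ∈ R ⟨n⟩ ∧ w ∈ Φ n t' i' (R ⟨n⟩) := by
        intro n t' i' w hw
        rcases hp.cases hth (((h n t').letr i').sub _ hw) with ⟨⟨m⟩, hm, hwm⟩ | ⟨hwc, hwn⟩
        · have h1 := (hp.letter hth hU hz ((h n t').letr i') hm hwm).1 hw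
          by_cases hmn : m = n
          · subst hmn
            exact ⟨hm, hwm, h1⟩
          · exfalso
            have h2 := closure_mono (Gb_mono (hdis n m fun h2 => hmn h2.symm).subset_compl_right _)
              ((h n t').see i' _ _ h1)
            rw [hth.free ⟨m⟩ _ _ (hp.pp _ hm).q, closure_empty] at h2
            exact h2
        · exfalso
          have hne : w ∉ ({z ⟨n⟩} : Set X) ∨ (⟨n⟩ : ULift.{u} ℕ) ∉ J := by
            by_cases hnJ : (⟨n⟩ : ULift.{u} ℕ) ∈ J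
            · left
              intro h1
              refine hwn ⟨n⟩ hnJ ?_
              have h2 : w = z ⟨n⟩ := h1
              rw [h2]
              exact hp.z_mem hth hnJ
            · exact Or.inr hnJ
          have h1 := (h n t').sep i' _ _ hw
          obtain ⟨O, hO, hwO, hOn⟩ : ∃ O : Set X, IsOpen O ∧ w ∈ O ∧ ∀ m : ULift.{u} ℕ, m ∈ J → z m ∈ O → m ≠ ⟨n⟩ := by
            rcases hne with hne | hne
            · refine ⟨{z ⟨n⟩}ᶜ, isOpen_compl_singleton, hne, ?_⟩
              rintro m _ hm rfl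
              exact hm rfl
            · refine ⟨univ, isOpen_univ, trivial, ?_⟩
              rintro m hm _ rfl
              exact hne hm
          obtain ⟨_, ⟨hzO, hz2⟩, m, hm, rfl⟩ := mem_closure_iff.1 hwc (O ∩ (closure (Gb (A' n)ᶜ (Un J R)))ᶜ)
            (hO.inter isClosed_closure.isOpen_compl) ⟨hwO, h1⟩
          obtain ⟨g, hg1, _, hg2⟩ := hp.see hth hU hz hm isClosed_closure.isOpen_compl hz2
          refine hg1 (subset_closure (Gb_mono ?_ _ hg2))
          exact (hdis m.down n fun h2 => hOn m hm hzO (ULift.ext _ _ h2)).subset_compl_right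
      refine ⟨isClosed_closure, ⟨?_, ?_, ?_⟩, ?_, ?_, ?_⟩
      · refine hp.zcl hth (mem_closure_iff.2 fun O hO hxO => ?_)
        obtain ⟨n, _, h1, h2⟩ := hJ 0 O hO hxO
        exact ⟨z ⟨n⟩, h2, ⟨n⟩, h1, rfl⟩
      · intro N
        refine mem_closure_iff.2 fun O hO hxO => ?_
        obtain ⟨n, hn, h1, h2⟩ := hJ N O hO hxO
        exact ⟨z ⟨n⟩, h2, n, hn, hp.z_Phi hth hU hz h1⟩
      · refine ⟨0, univ, isOpen_univ, trivial, fun n => ?_⟩
        rw [inter_univ]
        exact hcard _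
      · rintro ⟨t', i'⟩ hne
        rw [Set.eq_empty_iff_forall_notMem]
        rintro w ⟨hwT, hw1, N, O, hO, hwO, hw2⟩
        change ∀ N : ℕ, w ∈ closure {y | ∃ n ∈ {n | N ≤ n}, y ∈ Φ n t' i' (Un J R)} at hw1
        change ∀ n : {n // N ≤ n}, #(↥(Gb (A' n.1) (Un J R) ∩ O)) ≤ μ t' at hw2
        -- the point `w` is not in the pieces
        have hwn : ∀ m ∈ J, w ∉ R m := by
          intro m hm hwm
          obtain ⟨N', hN', hwN', h1⟩ := hp.nb hth hU hz hm hwm
          obtain ⟨y, hy1, n, hn, hy2⟩ := mem_closure_iff.1 (hw1 (m.down + 1)) N' hN' hwN'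
          obtain ⟨hnJ, hyR, _⟩ := hpos n t' i' y hy2
          have hyT := ((h n t').letr i').sub _ hy2
          have h2 : y ∈ Un J R ∩ N' := ⟨hyT, hy1⟩
          rw [h1] at h2
          have h3 := hp.disj hU hz hnJ hm hyR h2.1
          have h4 : n = m.down := congrArg ULift.down h3
          have h5 : m.down + 1 ≤ n := hn
          omega
        obtain ⟨y, _, n, _, hy⟩ := mem_closure_iff.1 (hw1 0) univ isOpen_univ trivial
        rcases lt_trichotomy (μ t') (μ t) with hlt | heq | hgt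
        · -- there is a copy of the letter near `w`
          have hwc : w ∈ closure (z '' J) := by
            rcases hp.cases hth hwT with ⟨m, hm, hwm⟩ | ⟨h1, _⟩
            · exact absurd hwm (hwn m hm)
            · exact h1
          have hfin : (z '' {m | m ∈ J ∧ m.down < N}).Finite := by
            refine Finite.image z ?_
            refine ((Set.finite_lt_nat N).image ULift.up).subset ?_
            rintro ⟨m⟩ ⟨_, hm⟩
            exact ⟨m, hm, rfl⟩
          obtain ⟨_, ⟨hzO, hz2⟩, m, hm, rfl⟩ := mem_closure_iff.1 hwc (O ∩ (z '' {m | m ∈ J ∧ m.down < N})ᶜ)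
            (hO.inter hfin.isClosed.isOpen_compl) ⟨hwO, by
              rintro ⟨m, hm, rfl⟩
              exact hwn m hm.1 (hp.z_mem hth hm.1)⟩
          have hNm : N ≤ m.down := by
            by_contra hcon
            exact hz2 ⟨m, ⟨hm, not_le.1 hcon⟩, rfl⟩
          have h1 := hex m.down t i _ _ (hp.z_Phi hth hU hz hm) O hO hzO
          exact absurd (h1.trans (hw2 ⟨m.down, hNm⟩)) (not_le.2 hlt)
        · have htt := hμ heq
          subst htt
          have hii : i' ≠ i := fun h1 => hne (by rw [h1])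
          obtain ⟨hnJ, _, h1⟩ := hpos n t' i' y hy
          rw [(h n t').oth i _ _ (hp.pp _ hnJ).q i' hii] at h1
          exact h1
        · have h1 := hex n t' i' _ _ hy univ isOpen_univ trivial
          rw [inter_univ] at h1
          exact absurd (h1.trans (hcard _)) (not_le.2 hgt)
      · rw [Set.eq_empty_iff_forall_notMem]
        intro w hw
        obtain ⟨m, _, k, hk, _⟩ := hp.gb_sub hth hU hz Aᶜ hw
        exact hk.1 (hA _ hk.2)
      · exact (hcard A).trans (hμl t)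

end

end Pool.Agent.Lib.MP_77266e_gtM
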