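import Pool.Agent.Lib.MP_77266e_gtM.Fin

/-!
# Linearly ordered spaces and their images are monotonically normal
-/

namespace Pool.Agent.Lib.MP_77266e_gtM

open Set Filter Topology

universe u v

/-- `m` is the least element of `Ioo x y` for the well-founded relation `r` -/
def Mid {Y : Type v} [LinearOrder Y] (r : Y → Y → Prop) (x y m : Y) : Prop :=
  x < m ∧ m < y ∧ ∀ m', x < m' → m' < y → ¬ r m' m

/-- the right part of the neighbourhood -/
def RP {Y : Type v} [LinearOrder Y] (r : Y → Y → Prop) (x : Y) (U : Set Y) : Set Y :=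
  {z | ∀ y, x < y → ¬ Icc x y ⊆ U → z ≤ x ∨ (z < y ∧ ∀ m, Mid r x y m → z < m)}

theorem RP_nhds {Y : Type v} [LinearOrder Y] [TopologicalSpace Y] [OrderTopology Y] (r : Y → Y → Prop)
    [IsWellOrder Y r] (x : Y) (U : Set Y) (hU : IsOpen U) (hx : x ∈ U) : RP r x U ∈ 𝓝 x := by
  by_cases hne : ∃ y, x < y ∧ ¬ Icc x y ⊆ U
  · obtain ⟨y0, hy0, hy0U⟩ := hne
    by_cases h1 : ∃ y1 m1, x < y1 ∧ ¬ Icc x y1 ⊆ U ∧ Mid r x y1 m1 ∧ Icc x m1 ⊆ U
    · obtain ⟨y1, m1, hy1, hy1U, hm1, hm1U⟩ := h1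
      refine mem_of_superset (Iio_mem_nhds hm1.1) ?_
      intro z hz y hy hyU
      by_cases hzx : z ≤ x
      · exact Or.inl hzx
      right
      have hzx' : x < z := not_le.1 hzx
      have hm1y : m1 < y := by
        by_contra hcon
        exact hyU ((Icc_subset_Icc_right (not_lt.1 hcon)).trans hm1U)
      have hzm : z < m1 := hz
      refine ⟨hzm.trans hm1y, fun m hm => ?_⟩
      rcases trichotomous_of r m m1 with h2 | h2 | h2
      · -- `m` is before `m1`, hence not in the interval of `y1`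
        have h3 : ¬ m < y1 := fun h3 => hm1.2.2 m hm.1 h3 h2
        exact hzm.trans (lt_of_lt_of_le hm1.2.1 (not_lt.1 h3))
      · rw [h2]
        exact hzm
      · exact absurd h2 (hm.2.2 m1 hm1.1 hm1y)
    · obtain ⟨b, hb, hbU⟩ := exists_Ico_subset_of_mem_nhds (hU.mem_nhds hx) ⟨y0, hy0⟩
      refine mem_of_superset (Iio_mem_nhds hb) ?_
      intro z hz y hy hyU
      right
      have hzb : z < b := hz
      have hbig : ∀ w, x < w → ¬ Icc x w ⊆ U → b ≤ w := by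
        intro w _ hwU
        by_contra hcon
        refine hwU fun t ht => hbU ⟨ht.1, lt_of_le_of_lt ht.2 (not_le.1 hcon)⟩
      refine ⟨lt_of_lt_of_le hzb (hbig y hy hyU), fun m hm => ?_⟩
      have hmU : ¬ Icc x m ⊆ U := fun h2 => h1 ⟨y, m, hy, hyU, hm, h2⟩
      exact lt_of_lt_of_le hzb (hbig m hm.1 hmU)
  · refine mem_of_superset univ_mem ?_
    intro z _ y hy hyU
    exact absurd ⟨y, hy, hyU⟩ hne

/-- the left part of the neighbourhood -/
def LP {Y : Type v} [LinearOrder Y] (r : Y → Y → Prop) (x : Y) (U : Set Y) : Set Y :=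
  {z | ∀ y, y < x → ¬ Icc y x ⊆ U → x ≤ z ∨ (y < z ∧ ∀ m, Mid r y x m → m < z)}

theorem LP_nhds {Y : Type v} [LinearOrder Y] [TopologicalSpace Y] [OrderTopology Y] (r : Y → Y → Prop)
    [IsWellOrder Y r] (x : Y) (U : Set Y) (hU : IsOpen U) (hx : x ∈ U) : LP r x U ∈ 𝓝 x := by
  by_cases hne : ∃ y, y < x ∧ ¬ Icc y x ⊆ U
  · obtain ⟨y0, hy0, hy0U⟩ := hne
    by_cases h1 : ∃ y1 m1, y1 < x ∧ ¬ Icc y1 x ⊆ U ∧ Mid r y1 x m1 ∧ Icc m1 x ⊆ U
    · obtain ⟨y1, m1, hy1, hy1U, hm1, hm1U⟩ := h1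
      refine mem_of_superset (Ioi_mem_nhds hm1.2.1) ?_
      intro z hz y hy hyU
      by_cases hzx : x ≤ z
      · exact Or.inl hzx
      right
      have hm1y : y < m1 := by
        by_contra hcon
        exact hyU ((Icc_subset_Icc_left (not_lt.1 hcon)).trans hm1U)
      have hzm : m1 < z := hz
      refine ⟨hm1y.trans hzm, fun m hm => ?_⟩
      rcases trichotomous_of r m m1 with h2 | h2 | h2
      · have h3 : ¬ y1 < m := fun h3 => hm1.2.2 m h3 hm.2.1 h2
        exact (lt_of_le_of_lt (not_lt.1 h3) hm1.1).trans hzm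
      · rw [h2]
        exact hzm
      · exact absurd h2 (hm.2.2 m1 hm1y hm1.2.1)
    · obtain ⟨b, hb, hbU⟩ := exists_Ioc_subset_of_mem_nhds (hU.mem_nhds hx) ⟨y0, hy0⟩
      refine mem_of_superset (Ioi_mem_nhds hb) ?_
      intro z hz y hy hyU
      right
      have hzb : b < z := hz
      have hbig : ∀ w, w < x → ¬ Icc w x ⊆ U → w ≤ b := by
        intro w _ hwU
        by_contra hcon
        refine hwU fun t ht => hbU ⟨lt_of_lt_of_le (not_le.1 hcon) ht.1, ht.2⟩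
      refine ⟨lt_of_le_of_lt (hbig y hy hyU) hzb, fun m hm => ?_⟩
      have hmU : ¬ Icc m x ⊆ U := fun h2 => h1 ⟨y, m, hy, hyU, hm, h2⟩
      exact lt_of_le_of_lt (hbig m hm.2.1 hmU) hzb
  · refine mem_of_superset univ_mem ?_
    intro z _ y hy hyU
    exact absurd ⟨y, hy, hyU⟩ hne

theorem monNormal_of_order (Y : Type v) [LinearOrder Y] [TopologicalSpace Y] [OrderTopology Y] : MonNormal Y := by
  let r : Y → Y → Prop := WellOrderingRel
  have hr : IsWellOrder Y r := WellOrderingRel.isWellOrder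
  have hkey : ∀ x y U V, x < y → x ∉ V → y ∉ U → ∀ z, z ∈ RP r x U → z ∈ LP r y V → False := by
    intro x y U V hxy hxV hyU z hz1 hz2
    have h1 : ¬ Icc x y ⊆ U := fun h => hyU (h ⟨hxy.le, le_rfl⟩)
    have h2 : ¬ Icc x y ⊆ V := fun h => hxV (h ⟨le_rfl, hxy.le⟩)
    rcases hz1 y hxy h1 with h3 | ⟨h3, h4⟩
    · rcases hz2 x hxy h2 with h5 | ⟨h5, _⟩
      · exact absurd (h3.trans_lt hxy) (not_lt.2 h5)
      · exact absurd h5 (not_lt.2 h3)
    · rcases hz2 x hxy h2 with h5 | ⟨h5, h6⟩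
      · exact absurd h3 (not_lt.2 h5)
      · obtain ⟨m, hm, hmin⟩ := hr.wf.has_min {m | x < m ∧ m < y} ⟨z, h5, h3⟩
        have h7 : Mid r x y m := ⟨hm.1, hm.2, fun m' h8 h9 => hmin m' ⟨h8, h9⟩⟩
        exact absurd (h4 m h7) (not_lt.2 (h6 m h7).le)
  refine ⟨fun x U => interior (RP r x U ∩ LP r x U) ∩ U, fun x U hU hx => ⟨isOpen_interior.inter hU, ⟨?_, hx⟩,
    inter_subset_right⟩, ?_⟩
  · exact mem_interior_iff_mem_nhds.2 (inter_mem (RP_nhds r x U hU hx) (LP_nhds r x U hU hx))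
  · rintro x y U V _ _ hx hy ⟨z, ⟨hz1, _⟩, ⟨hz2, _⟩⟩
    have hz3 := interior_subset hz1
    have hz4 := interior_subset hz2
    by_contra hcon
    push Not at hcon
    rcases lt_trichotomy x y with h | h | h
    · exact hkey x y U V h hcon.1 hcon.2 z hz3.1 hz4.2
    · rw [← h] at hcon
      exact hcon.2 hx
    · exact hkey y x V U h hcon.2 hcon.1 z hz4.1 hz3.2

theorem MonNormal.image {Y : Type v} {X : Type u} [TopologicalSpace Y] [TopologicalSpace X] (h : MonNormal Y)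
    {f : Y → X} (hf : Continuous f) (hc : IsClosedMap f) (hs : Function.Surjective f) : MonNormal X := by
  obtain ⟨H, hH1, hH2⟩ := h
  let G : X → Set X → Set Y := fun x U => {w | ∃ y, f y = x ∧ w ∈ H y (f ⁻¹' U)}
  have hG : ∀ x U, IsOpen U → x ∈ U → IsOpen (G x U) := by
    intro x U hU hx
    have h1 : G x U = ⋃ y : {y // f y = x}, H y (f ⁻¹' U) := by
      ext w
      constructor
      · rintro ⟨y, hy, hw⟩
        exact mem_iUnion.2 ⟨⟨y, hy⟩, hw⟩
      · intro hw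
        obtain ⟨y, hw⟩ := mem_iUnion.1 hw
        exact ⟨y, y.2, hw⟩
    rw [h1]
    refine isOpen_iUnion fun y => (hH1 y _ (hU.preimage hf) ?_).1
    change f y ∈ U
    rw [y.2]
    exact hx
  refine ⟨fun x U => (f '' (G x U)ᶜ)ᶜ, fun x U hU hx => ⟨(hc _ (hG x U hU hx).isClosed_compl).isOpen_compl, ?_, ?_⟩, ?_⟩
  · rintro ⟨y, hy, hyx⟩
    refine hy ⟨y, hyx, (hH1 y _ (hU.preimage hf) ?_).2.1⟩
    change f y ∈ U
    rw [hyx]
    exact hx
  · intro t ht
    obtain ⟨w, rfl⟩ := hs t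
    have h1 : w ∈ G x U := by
      by_contra h2
      exact ht ⟨w, h2, rfl⟩
    obtain ⟨y, hy, hw⟩ := h1
    refine (hH1 y _ (hU.preimage hf) ?_).2.2 hw
    change f y ∈ U
    rw [hy]
    exact hx
  · rintro x x' U V hU hV hx hx' ⟨t, ht1, ht2⟩
    obtain ⟨w, rfl⟩ := hs t
    have h1 : w ∈ G x U := by
      by_contra h2
      exact ht1 ⟨w, h2, rfl⟩
    have h2 : w ∈ G x' V := by
      by_contra h2
      exact ht2 ⟨w, h2, rfl⟩
    obtain ⟨y, hy, hw⟩ := h1
    obtain ⟨y', hy', hw'⟩ := h2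
    have h3 : y ∈ f ⁻¹' U := by
      change f y ∈ U
      rw [hy]
      exact hx
    have h4 : y' ∈ f ⁻¹' V := by
      change f y' ∈ V
      rw [hy']
      exact hx'
    rcases hH2 y y' _ _ (hU.preimage hf) (hV.preimage hf) h3 h4 ⟨w, hw, hw'⟩ with h5 | h5
    · left
      rw [← hy]
      exact h5
    · right
      rw [← hy']
      exact h5

end Pool.Agent.Lib.MP_77266e_gtM
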