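import Pool.Agent.Lib.MP_77266e_gtM.Typ
import Pool.Agent.Lib.MP_77266e_gtM.Defs

/-!
# Large discrete sets in the perfect kernel
-/

namespace Pool.Agent.Lib.MP_77266e_gtM

open Set Filter Topology Cardinal

universe u

variable {X : Type u} [TopologicalSpace X]

/-- the perfect kernel: the union of all subsets without isolated points -/
def kernel (X : Type u) [TopologicalSpace X] : Set X := {x | ∃ Q : Set X, x ∈ Q ∧ Crowded Q}

/-- the conclusion: a discrete subset of the kernel of size continuum, and at least that many isolated points -/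
def Big (X : Type u) [TopologicalSpace X] : Prop :=
  (∃ S : Set X, S ⊆ kernel X ∧ (∀ x ∈ S, ∃ U : Set X, IsClopen U ∧ U ∩ S = {x}) ∧ #S = 𝔠) ∧
    𝔠 ≤ #{x : X // IsOpen ({x} : Set X)}

/-- the code of a function -/
def cod (f : ℕ → Bool) (k : ℕ) : ℕ := Encodable.encode ((List.range k).map f)

theorem cod_eq {f g : ℕ → Bool} {k l : ℕ} (h : cod f k = cod g l) : k = l ∧ ∀ i < k, f i = g i := by
  have h1 : (List.range k).map f = (List.range l).map g := Encodable.encode_injective h
  have h2 : k = l := by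
    have h3 := congrArg List.length h1
    rw [List.length_map, List.length_map, List.length_range, List.length_range] at h3
    exact h3
  subst h2
  refine ⟨rfl, fun i hi => ?_⟩
  exact List.map_inj_left.1 h1 i (List.mem_range.2 hi)

theorem cod_inj (f : ℕ → Bool) : Function.Injective (cod f) := fun _ _ h => (cod_eq h).1

theorem exists_copy (hX : CO X) {F : Set X} (hF : IsClosed F) :
    ∃ φ : F → X, IsEmbedding φ ∧ IsClopen (range φ) := by
  obtain ⟨U, hU, ⟨e⟩⟩ := hX F hF
  refine ⟨fun x => (e x : X), IsEmbedding.subtypeVal.comp e.isEmbedding, ?_⟩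
  have h1 : range (fun x : F => (e x : X)) = U := by
    ext y
    constructor
    · rintro ⟨x, rfl⟩
      exact (e x).2
    · intro hy
      refine ⟨e.symm ⟨y, hy⟩, ?_⟩
      change (e (e.symm ⟨y, hy⟩) : X) = y
      rw [e.apply_symm_apply]
  rw [h1]
  exact hU

theorem isolated_of_discrete [T1Space X] (hX : CO X) (S : Set X) (hS : ∀ x ∈ S, ∃ U : Set X, IsOpen U ∧ U ∩ S = {x}) :
    #S ≤ #{x : X // IsOpen ({x} : Set X)} := by
  obtain ⟨φ, hφ, hU⟩ := exists_copy hX (isClosed_closure (s := S))
  have hopen : ∀ x : S, IsOpen ({φ ⟨x, subset_closure x.2⟩} : Set X) := by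
    intro x
    obtain ⟨V, hV, hVS⟩ := hS x x.2
    have hxV : (x : X) ∈ V := by
      have h1 : (x : X) ∈ V ∩ S := by rw [hVS]; exact rfl
      exact h1.1
    have h1 : ((↑) ⁻¹' V : Set (closure S)) = {⟨x, subset_closure x.2⟩} := by
      ext y
      constructor
      · intro hy
        by_contra hne
        have hne2 : (y : X) ≠ x := fun h => hne (Subtype.ext h)
        obtain ⟨z, hz1, hz2⟩ := mem_closure_iff.1 y.2 (V ∩ {(x : X)}ᶜ)
          (hV.inter isOpen_compl_singleton) ⟨hy, hne2⟩
        have h2 : z ∈ V ∩ S := ⟨hz1.1, hz2⟩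
        rw [hVS] at h2
        exact hz1.2 h2
      · intro hy
        have hy2 : y = ⟨x, subset_closure x.2⟩ := hy
        subst hy2
        exact hxV
    have h2 : IsOpen ({⟨x, subset_closure x.2⟩} : Set (closure S)) := by
      rw [← h1]
      exact hV.preimage continuous_subtype_val
    have h3 : IsOpen (φ '' {⟨x, subset_closure x.2⟩}) :=
      (IsOpenEmbedding.isOpenMap ⟨hφ, hU.isOpen⟩) _ h2
    rwa [image_singleton] at h3
  refine mk_le_of_injective (f := fun x : S => (⟨φ ⟨x, subset_closure x.2⟩, hopen x⟩ : {x : X // IsOpen ({x} : Set X)})) ?_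
  intro x y hxy
  have h1 := hφ.injective (congrArg Subtype.val hxy)
  exact Subtype.ext (congrArg (fun t : closure S => (t : X)) h1)

theorem big_of_good [T2Space X] [CompactSpace X] (hX : CO X) {K : Set X} (hK : Good K) (hne : K.Nonempty) : Big X := by
  choose F p hF hpF hcode hconv hQ using fun f : ℕ → Bool => exists_code hK hne (cod f) (cod_inj f)
  choose φ hφ hU using fun f => exists_copy hX (hF f)
  let z : (ℕ → Bool) → X := fun f => φ f ⟨p f, hpF f⟩
  have hz : ∀ f, z f ∈ range (φ f) := fun f => mem_range_self _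
  have hkey : ∀ f g, z g ∈ range (φ f) → g = f := by
    intro f g h
    have h1 : ∀ᶠ k in atTop, ∃ l, cod f l = cod g k := by
      obtain ⟨N, hN, hN2⟩ := isOpen_induced_iff.1 ((hU f).isOpen.preimage (hφ g).continuous)
      have hpN : p g ∈ N := by
        have h2 : (⟨p g, hpF g⟩ : F g) ∈ (↑) ⁻¹' N := by
          rw [hN2]
          exact h
        exact h2
      filter_upwards [hconv g N hN hpN] with k hk
      obtain ⟨x, ⟨hxF, hxN⟩, hL⟩ := hk
      have h3 : φ g ⟨x, hxF⟩ ∈ range (φ f) := by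
        have h4 : (⟨x, hxF⟩ : F g) ∈ (↑) ⁻¹' N := hxN
        rw [hN2] at h4
        exact h4
      rw [Lt_transfer (hφ g) (hU g).isOpen _ ⟨x, hxF⟩] at hL
      obtain ⟨y, hy⟩ := h3
      rw [← hy, ← Lt_transfer (hφ f) (hU f).isOpen _ y] at hL
      exact hcode f _ y y.2 hL
    obtain ⟨m, hm⟩ := eventually_atTop.1 h1
    funext i
    obtain ⟨l, hl⟩ := hm (m + i + 1) (by omega)
    obtain ⟨h2, h3⟩ := cod_eq hl
    exact (h3 i (by omega)).symm
  have hzinj : Function.Injective z := by
    intro f g hfg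
    refine (hkey f g ?_).symm
    rw [← hfg]
    exact hz f
  have hdisc : ∀ x ∈ range z, ∃ U : Set X, IsClopen U ∧ U ∩ range z = {x} := by
    rintro _ ⟨f, rfl⟩
    refine ⟨range (φ f), hU f, ?_⟩
    ext y
    constructor
    · rintro ⟨hy1, g, rfl⟩
      rw [hkey f g hy1]
      exact rfl
    · intro hy
      have hy2 : y = z f := hy
      subst hy2
      exact ⟨hz f, mem_range_self f⟩
  have hcard : #(range z) = 𝔠 := by
    have h1 : lift.{0} #(range z) = lift.{u} #(ℕ → Bool) := by
      have h2 := mk_range_eq_of_injective hzinj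
      exact h2
    rw [lift_uzero] at h1
    rw [h1]
    simp
  have hker : range z ⊆ kernel X := by
    rintro _ ⟨f, rfl⟩
    obtain ⟨Q, hQF, hpQ, hQc⟩ := hQ f
    have h1 : (⟨p f, hpF f⟩ : F f) ∈ ((↑) ⁻¹' Q : Set (F f)) := hpQ
    refine ⟨φ f '' ((↑) ⁻¹' Q : Set (F f)), mem_image_of_mem (φ f) h1, ?_⟩
    exact (hQc.preimage_val hQF).image (hφ f)
  refine ⟨⟨range z, hker, hdisc, hcard⟩, ?_⟩
  rw [← hcard]
  refine isolated_of_discrete hX _ fun x hx => ?_
  obtain ⟨U, hU, hUx⟩ := hdisc x hx
  exact ⟨U, hU.isOpen, hUx⟩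

end Pool.Agent.Lib.MP_77266e_gtM
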