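import Pool.Agent.Lib.MP_77266e_gtM.Dev

/-!
# Monotonically normal spaces
-/

namespace Pool.Agent.Lib.MP_77266e_gtM

open Set Filter Topology Cardinal

universe u

variable {X : Type u} [TopologicalSpace X]

theorem MonNormal.expand (h : MonNormal X) : Expand X := by
  classical
  obtain ⟨H, hH1, hH2⟩ := h
  intro S hS
  choose! O hO hOS using hS
  have hOm : ∀ x ∈ S, x ∈ O x := fun x hx => by
    have h1 : x ∈ O x ∩ S := by
      rw [hOS x hx]
      exact rfl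
    exact h1.1
  have hOn : ∀ x ∈ S, ∀ y ∈ S, y ∈ O x → y = x := fun x hx y hy h1 => by
    have h2 : y ∈ O x ∩ S := ⟨h1, hy⟩
    rw [hOS x hx] at h2
    exact h2
  have h1 : ∀ x ∈ S, IsOpen (H x (O x)) ∧ x ∈ H x (O x) := fun x hx =>
    ⟨(hH1 x (O x) (hO x hx) (hOm x hx)).1, (hH1 x (O x) (hO x hx) (hOm x hx)).2.1⟩
  have hdis : ∀ a ∈ S, ∀ b ∈ S, ∀ y, y ∈ H a (O a) → y ∈ H b (O b) → a = b := by
    intro a ha b hb y hya hyb
    rcases hH2 a b (O a) (O b) (hO a ha) (hO b hb) (hOm a ha) (hOm b hb) ⟨y, hya, hyb⟩ with h2 | h2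
    · exact hOn b hb a ha h2
    · exact (hOn a ha b hb h2).symm
  refine ⟨fun x => H x (H x (O x)), fun x hx => ?_, fun y hy => ?_⟩
  · exact ⟨(hH1 x _ (h1 x hx).1 (h1 x hx).2).1, (hH1 x _ (h1 x hx).1 (h1 x hx).2).2.1⟩
  · by_cases hyS : y ∈ S
    · refine ⟨H y (H y (O y)), (hH1 y _ (h1 y hyS).1 (h1 y hyS).2).1, (hH1 y _ (h1 y hyS).1 (h1 y hyS).2).2.1, ?_⟩
      have h2 : ∀ a ∈ S, (H y (H y (O y)) ∩ H a (H a (O a))).Nonempty → a = y := by
        rintro a ha ⟨w, hw1, hw2⟩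
        have hw3 := (hH1 y _ (h1 y hyS).1 (h1 y hyS).2).2.2 hw1
        have hw4 := (hH1 a _ (h1 a ha).1 (h1 a ha).2).2.2 hw2
        exact hdis a ha y hyS w hw4 hw3
      intro a ha b hb hA hB
      rw [h2 a ha hA, h2 b hb hB]
    · have hyc : y ∈ (closure S)ᶜ := fun h2 => hyS (hy h2)
      have hco : IsOpen (closure S)ᶜ := isClosed_closure.isOpen_compl
      refine ⟨H y (closure S)ᶜ, (hH1 y _ hco hyc).1, (hH1 y _ hco hyc).2.1, ?_⟩
      have h2 : ∀ a ∈ S, (H y (closure S)ᶜ ∩ H a (H a (O a))).Nonempty → y ∈ H a (O a) := by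
        intro a ha hA
        rcases hH2 y a _ _ hco (h1 a ha).1 hyc (h1 a ha).2 hA with h3 | h3
        · exact h3
        · exact absurd (subset_closure ha) h3
      intro a ha b hb hA hB
      exact hdis a ha b hb y (h2 a ha hA) (h2 b hb hB)

theorem exists_omega1 : ∃ (Ω : Type) (_ : LinearOrder Ω) (_ : WellFoundedLT Ω), (∀ α : Ω, (Iio α).Countable) ∧
    ¬ (univ : Set Ω).Countable := by
  refine ⟨(ℵ₁ : Cardinal.{0}).ord.ToType, inferInstance, inferInstance, ?_, ?_⟩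
  · intro α
    have h1 : #(Iio α) < #((ℵ₁ : Cardinal.{0}).ord.ToType) := mk_Iio_lt α (by simp)
    rw [mk_ord_toType] at h1
    exact le_aleph0_iff_set_countable.1 (lt_aleph_one_iff.1 h1)
  · intro h1
    have h2 := lt_aleph_one_iff.2 (le_aleph0_iff_set_countable.2 h1)
    rw [mk_univ, mk_ord_toType] at h2
    exact absurd h2 (lt_irrefl _)

/-- in a monotonically normal space, the points of the closure of a countable set are intersections of countable
families of open sets in this closure -/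
theorem MonNormal.gdelta [T2Space X] (hM : MonNormal X) (d : ℕ → X) (p : X) :
    ∃ O : ℕ → Set X, (∀ n, IsOpen (O n) ∧ p ∈ O n) ∧ ∀ y ∈ closure (range d), (∀ n, y ∈ O n) → y = p := by
  by_contra hcon
  push Not at hcon
  obtain ⟨H, hH1, hH2⟩ := hM
  let T := {t : X × Set X // t.1 ∈ closure (range d) ∧ IsOpen t.2 ∧ p ∈ t.2 ∧ t.1 ∉ closure t.2}
  have hstep : ∀ S : Set T, S.Countable → ∃ t : T, ∀ c ∈ S, t.1.1 ∈ c.1.2 := by
    intro S hS
    obtain ⟨O, hO, hOS⟩ : ∃ O : ℕ → Set X, (∀ n, IsOpen (O n) ∧ p ∈ O n) ∧ ∀ c ∈ S, ∃ n, O n = c.1.2 := by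
      rcases S.eq_empty_or_nonempty with rfl | hne
      · exact ⟨fun _ => univ, fun _ => ⟨isOpen_univ, trivial⟩, fun c hc => absurd hc (Set.notMem_empty c)⟩
      · obtain ⟨f, rfl⟩ := hS.exists_eq_range hne
        refine ⟨fun n => (f n).1.2, fun n => ⟨(f n).2.2.1, (f n).2.2.2.1⟩, ?_⟩
        rintro _ ⟨n, rfl⟩
        exact ⟨n, rfl⟩
    obtain ⟨y, hy1, hy2, hy3⟩ := hcon O hO
    obtain ⟨u, v, hu, hv, hyu, hpv, huv⟩ := t2_separation hy3
    refine ⟨⟨(y, v), hy1, hv, hpv, fun h1 => ?_⟩, fun c hc => ?_⟩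
    · obtain ⟨w, hw1, hw2⟩ := mem_closure_iff.1 h1 u hu hyu
      exact Set.disjoint_left.1 huv hw1 hw2
    · obtain ⟨n, hn⟩ := hOS c hc
      rw [← hn]
      exact hy2 n
  have hTne : Nonempty T := ⟨(hstep ∅ Set.countable_empty).choose⟩
  choose! g hg using hstep
  obtain ⟨Ω, _, _, hΩ, hΩ2⟩ := exists_omega1
  let f : Ω → T := (wellFounded_lt (α := Ω)).fix fun α rec => g {t | ∃ (β : Ω) (h : β < α), t = rec β h}
  have hf : ∀ α, f α = g {t | ∃ β < α, t = f β} := by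
    intro α
    have h1 := (wellFounded_lt (α := Ω)).fix_eq (fun α rec => g {t | ∃ (β : Ω) (h : β < α), t = rec β h}) α
    change f α = g {t | ∃ (β : Ω) (_ : β < α), t = f β} at h1
    rw [h1]
    congr 1
    ext t
    constructor
    · rintro ⟨β, h2, h3⟩
      exact ⟨β, h2, h3⟩
    · rintro ⟨β, h2, h3⟩
      exact ⟨β, h2, h3⟩
  have hfO : ∀ α β, β < α → (f α).1.1 ∈ (f β).1.2 := by
    intro α β hβ
    rw [hf α]
    refine hg _ ?_ (f β) ⟨β, hβ, rfl⟩
    have h1 : {t | ∃ β < α, t = f β} = f '' Iio α := by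
      ext t
      constructor
      · rintro ⟨β, h2, rfl⟩
        exact ⟨β, h2, rfl⟩
      · rintro ⟨β, h2, rfl⟩
        exact ⟨β, h2, rfl⟩
    rw [h1]
    exact (hΩ α).image f
  let y : Ω → X := fun α => (f α).1.1
  let O : Ω → Set X := fun α => (f α).1.2
  let V : Ω → Set X := fun α => (closure (O α))ᶜ
  have hO : ∀ α, IsOpen (O α) := fun α => (f α).2.2.1
  have hV : ∀ α, IsOpen (V α) := fun α => isClosed_closure.isOpen_compl
  have hyV : ∀ α, y α ∈ V α := fun α => (f α).2.2.2.2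
  have hyO : ∀ α β, α < β → y β ∈ O α := fun α β h => hfO β α h
  have hVO : ∀ α w, w ∈ V α → w ∉ O α := fun α w h1 h2 => h1 (subset_closure h2)
  have hycl : ∀ α, y α ∈ closure (range d) := fun α => (f α).2.1
  have hd : ∀ α, ∃ n, d n ∈ H (y α) (V α) := by
    intro α
    obtain ⟨_, h1, n, rfl⟩ := mem_closure_iff.1 (hycl α) _ (hH1 (y α) (V α) (hV α) (hyV α)).1
      (hH1 (y α) (V α) (hV α) (hyV α)).2.1
    exact ⟨n, h1⟩
  choose n hn using hd
  obtain ⟨n0, hn0⟩ : ∃ n0, ¬ {α | n α = n0}.Countable := by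
    by_contra hc
    push Not at hc
    refine hΩ2 ((Set.countable_iUnion hc).mono fun α _ => mem_iUnion.2 ⟨n α, rfl⟩)
  set E : Set Ω := {α | n α = n0} with hEdef
  have hE : ∀ α ∈ E, ∀ β ∈ E, α < β → y α ∈ V β := by
    intro α hα β hβ hαβ
    have h1 : n α = n0 := hα
    have h2 : n β = n0 := hβ
    have h3 := hn α
    have h4 := hn β
    rw [h1] at h3
    rw [h2] at h4
    rcases hH2 (y α) (y β) (V α) (V β) (hV α) (hV β) (hyV α) (hyV β) ⟨_, h3, h4⟩ with h5 | h5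
    · exact h5
    · exact absurd (hyO α β hαβ) (hVO α _ h5)
  have hnext : ∀ α : Ω, ∃ γ ∈ E, α < γ := by
    intro α
    by_contra hc
    push Not at hc
    refine hn0 ((((hΩ α).insert α)).mono fun γ hγ => ?_)
    rcases (hc γ hγ).lt_or_eq with h1 | h1
    · exact Or.inr h1
    · exact Or.inl h1
  have hmin : ∀ α : Ω, ∃ γ ∈ E, α < γ ∧ ∀ δ ∈ E, α < δ → γ ≤ δ := by
    intro α
    obtain ⟨γ, h1, h2⟩ := (wellFounded_lt (α := Ω)).has_min {γ | γ ∈ E ∧ α < γ} (hnext α)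
    exact ⟨γ, h1.1, h1.2, fun δ hδ hαδ => not_lt.1 (h2 δ ⟨hδ, hαδ⟩)⟩
  choose s hsE hs1 hs2 using hmin
  let W : Ω → Set X := fun α => V (s α) ∩ O α
  have hW : ∀ α, IsOpen (W α) := fun α => (hV _).inter (hO _)
  have hyW : ∀ α, y (s α) ∈ W α := fun α => ⟨hyV _, hyO _ _ (hs1 α)⟩
  have hd2 : ∀ α, ∃ m, d m ∈ H (y (s α)) (W α) := by
    intro α
    obtain ⟨_, h1, m, rfl⟩ := mem_closure_iff.1 (hycl (s α)) _ (hH1 (y (s α)) (W α) (hW α) (hyW α)).1
      (hH1 (y (s α)) (W α) (hW α) (hyW α)).2.1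
    exact ⟨m, h1⟩
  choose m hm using hd2
  have hkey : ∀ α ∈ E, ∀ β ∈ E, α < β → m α ≠ m β := by
    intro α hα β hβ hαβ hmm
    have h1 := hm α
    have h2 := hm β
    rw [← hmm] at h2
    have h3 : s α ≤ β := hs2 α β hβ hαβ
    rcases hH2 _ _ (W α) (W β) (hW α) (hW β) (hyW α) (hyW β) ⟨_, h1, h2⟩ with h4 | h4
    · refine hVO β _ ?_ h4.2
      rcases h3.lt_or_eq with h5 | h5
      · exact hE _ (hsE α) _ hβ h5
      · rw [h5]
        exact hyV β
    · exact hVO _ _ h4.1 (hyO _ _ (lt_of_le_of_lt h3 (hs1 β)))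
  refine hn0 (Set.countable_coe_iff.1 (Function.Injective.countable (f := fun α : E => m α) ?_))
  intro α β hαβ
  rcases lt_trichotomy (α : Ω) β with h1 | h1 | h1
  · exact absurd hαβ (hkey α α.2 β β.2 h1)
  · exact Subtype.ext h1
  · exact absurd hαβ.symm (hkey β β.2 α α.2 h1)

/-- every infinite closed set contains a nontrivial convergent sequence -/
theorem MonNormal.seq [T2Space X] [CompactSpace X] (hM : MonNormal X) {F : Set X} (hF : IsClosed F)
    (hinf : F.Infinite) : ∃ (s : ℕ → X) (p : X), (∀ n, s n ∈ F ∧ s n ≠ p) ∧ Tendsto s atTop (𝓝 p) := by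
  let e := hinf.natEmbedding
  let d : ℕ → X := fun n => e n
  have hdinj : Function.Injective d := fun a b h => e.injective (Subtype.ext h)
  have hdF : ∀ n, d n ∈ F := fun n => (e n).2
  obtain ⟨p, hpF, hp⟩ := (Set.infinite_range_of_injective hdinj).exists_accPt_of_subset_isCompact hF.isCompact
    (by rintro _ ⟨n, rfl⟩; exact hdF n)
  rw [accPt_iff_nhds] at hp
  obtain ⟨O, hO, hOp⟩ := hM.gdelta d p
  have hstep : ∀ (G : {G : Set X // IsOpen G ∧ p ∈ G}) (n : ℕ), ∃ G' : {G : Set X // IsOpen G ∧ p ∈ G},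
      closure (G' : Set X) ⊆ G ∩ O n := by
    intro G n
    have h1 : G.1 ∩ O n ∈ 𝓝 p := (G.2.1.inter (hO n).1).mem_nhds ⟨G.2.2, (hO n).2⟩
    obtain ⟨t, ht, htc, htO⟩ := exists_mem_nhds_isClosed_subset h1
    exact ⟨⟨interior t, isOpen_interior, mem_interior_iff_mem_nhds.2 ht⟩, (closure_minimal interior_subset htc).trans htO⟩
  choose g hg using hstep
  let G : ℕ → {G : Set X // IsOpen G ∧ p ∈ G} := fun n => Nat.rec ⟨univ, isOpen_univ, trivial⟩ (fun n G => g G n) n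
  have hG : ∀ n, closure (G (n + 1)).1 ⊆ (G n).1 ∩ O n := fun n => hg (G n) n
  have hGanti : ∀ k n, k ≤ n → (G n).1 ⊆ (G k).1 := by
    intro k n hkn
    induction n, hkn using Nat.le_induction with
    | base => exact Subset.rfl
    | succ n _ ih => exact (subset_closure.trans (hG n)).trans (inter_subset_left.trans ih)
  have hex : ∀ n, ∃ y, y ∈ (G n).1 ∧ y ∈ range d ∧ y ≠ p := by
    intro n
    obtain ⟨y, hy1, hy2⟩ := hp (G n).1 ((G n).2.1.mem_nhds (G n).2.2)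
    exact ⟨y, hy1.1, hy1.2, hy2⟩
  choose s hs1 hs2 hs3 using hex
  refine ⟨s, p, fun n => ⟨?_, hs3 n⟩, ?_⟩
  · obtain ⟨k, hk⟩ := hs2 n
    rw [← hk]
    exact hdF k
  · rw [tendsto_nhds]
    intro N hN hpN
    have h1 : ∃ n, closure (G n).1 ∩ closure (range d) ⊆ N := by
      by_contra hc
      push Not at hc
      have h2 : (⋂ n, closure (G n).1 ∩ closure (range d) ∩ Nᶜ).Nonempty := by
        refine IsCompact.nonempty_iInter_of_sequence_nonempty_isCompact_isClosed _ ?_ ?_ ?_ ?_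
        · intro n y hy
          exact ⟨⟨closure_mono (hGanti n (n + 1) (Nat.le_succ n)) hy.1.1, hy.1.2⟩, hy.2⟩
        · intro n
          obtain ⟨y, hy1, hy2⟩ := Set.not_subset.1 (hc n)
          exact ⟨y, hy1, hy2⟩
        · exact ((isClosed_closure.inter isClosed_closure).inter hN.isClosed_compl).isCompact
        · exact fun n => (isClosed_closure.inter isClosed_closure).inter hN.isClosed_compl
      obtain ⟨y, hy⟩ := h2
      rw [mem_iInter] at hy
      have h3 : y = p := hOp y (hy 0).1.2 fun n => (hG n (hy (n + 1)).1.1).2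
      rw [h3] at hy
      exact (hy 0).2 hpN
    obtain ⟨n, hn⟩ := h1
    refine mem_atTop_sets.2 ⟨n, fun k hk => hn ⟨subset_closure (hGanti n k hk (hs1 k)), subset_closure (hs2 k)⟩⟩

end Pool.Agent.Lib.MP_77266e_gtM
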