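import Pool.Agent.Lib.MP_77266e_gtM.Sys

/-!
# The power step
-/

namespace Pool.Agent.Lib.MP_77266e_gtM

open Set Filter Topology Cardinal

universe u

variable {X : Type u} [TopologicalSpace X]

section

variable {I : Type u} {B : I → Set ℕ} {c : Cardinal.{u}} {Φ : I → Set X → Set X} {Q : I → Set X → X → Prop}
  {U : I → Set X} {z : I → X}

theorem exists_Pk (hE : Expand X) (h : Sys B c Φ Q) (hU : ∀ i, IsOpen (U i)) (hz : ∀ i j, j ≠ i → z j ∉ U i)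
    (J : Set I) (R : I → Set X) (hR : ∀ i ∈ J, PP (Q i) (R i) (z i)) (hRU : ∀ i ∈ J, R i ⊆ U i) {G : Set X}
    (hG : IsOpen G) (hGz : ∀ i ∈ J, z i ∈ G) : ∃ R' : I → Set X, Pk Q U z J R' ∧ ∀ i ∈ J, R' i ⊆ R i ∩ G := by
  have hzR : ∀ i ∈ J, z i ∈ R i := fun i hi => h.mem_of (hR i hi).q
  obtain ⟨V, hV, hdd⟩ := hE (z '' J) (by
    rintro _ ⟨i, hi, rfl⟩
    refine ⟨U i, hU i, ?_⟩
    ext y
    constructor
    · rintro ⟨hy, j, hj, rfl⟩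
      by_cases hji : j = i
      · rw [hji]
        exact rfl
      · exact absurd hy (hz i j hji)
    · intro hy
      have hy2 : y = z i := hy
      rw [hy2]
      exact ⟨hRU i hi (hzR i hi), i, hi, rfl⟩)
  have hex : ∀ i, ∃ R' : Set X, i ∈ J → R' ⊆ R i ∩ (V (z i) ∩ G) ∧ PP (Q i) R' (z i) := by
    intro i
    by_cases hi : i ∈ J
    · obtain ⟨R', h1, h2⟩ := (hR i hi).shrink ((hV (z i) ⟨i, hi, rfl⟩).1.inter hG)
        ⟨(hV (z i) ⟨i, hi, rfl⟩).2, hGz i hi⟩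
      exact ⟨R', fun _ => ⟨h1, h2⟩⟩
    · exact ⟨∅, fun h1 => absurd h1 hi⟩
  choose R' hR' using hex
  refine ⟨R', ⟨fun i hi => (hR' i hi).2, fun i hi x hx => hRU i hi ((hR' i hi).1 hx).1, ?_⟩,
    fun i hi x hx => ⟨((hR' i hi).1 hx).1, ((hR' i hi).1 hx).2.2⟩⟩
  intro y hy
  obtain ⟨N, hN, hyN, hNN⟩ := hdd y hy
  refine ⟨N, hN, hyN, ?_⟩
  rintro i hi j hj ⟨a, ha1, ha2⟩ ⟨b, hb1, hb2⟩
  have h1 := hNN (z i) ⟨i, hi, rfl⟩ (z j) ⟨j, hj, rfl⟩ ⟨a, ha1, ((hR' i hi).1 ha2).2.1⟩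
    ⟨b, hb1, ((hR' j hj).1 hb2).2.1⟩
  by_contra hne
  refine hz i j (fun hh => hne hh.symm) ?_
  rw [← h1]
  exact hRU i hi (hzR i hi)

/-- the existence of test sets for a new letter at the point `x` -/
theorem exists_PP [RegularSpace X] (hE : Expand X) (h : Sys B c Φ Q) (hU : ∀ i, IsOpen (U i))
    (hz : ∀ i j, j ≠ i → z j ∉ U i) (hP : ∀ i, PP (Q i) (U i) (z i)) {Q' : Set X → X → Prop} {x : X}
    (Acc : Set I → Prop) (J0 : Set I) (h0 : Acc J0)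
    (h1 : ∀ J G, Acc J → IsOpen G → x ∈ G → Acc {i | i ∈ J ∧ z i ∈ G})
    (h2 : ∀ J R, Pk Q U z J R → Acc J → Q' (Un J R) x) : ∃ T, PP Q' T x := by
  obtain ⟨R0, hR0, _⟩ := exists_Pk hE h hU hz J0 U (fun i _ => hP i) (fun i _ => Subset.rfl) isOpen_univ
    fun i _ => trivial
  refine ⟨Un J0 R0, {T | ∃ J R, Pk Q U z J R ∧ Acc J ∧ T = Un J R}, ⟨J0, R0, hR0, h0, rfl⟩, ?_⟩
  rintro _ ⟨J, R, hp, hJ, rfl⟩
  refine ⟨h2 J R hp hJ, fun V hV hxV => ?_⟩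
  obtain ⟨G, hG, hxG, hGV⟩ : ∃ G : Set X, IsOpen G ∧ x ∈ G ∧ closure G ⊆ V := by
    obtain ⟨t, ht, htc, htO⟩ := exists_mem_nhds_isClosed_subset (hV.mem_nhds hxV)
    refine ⟨interior t, isOpen_interior, mem_interior_iff_mem_nhds.2 ht, ?_⟩
    exact (closure_minimal interior_subset htc).trans htO
  obtain ⟨R', hR', hs⟩ := exists_Pk hE h hU hz {i | i ∈ J ∧ z i ∈ G} R (fun i hi => hp.pp i hi.1)
    (fun i hi => hp.sub i hi.1) hG fun i hi => hi.2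
  refine ⟨_, ⟨_, R', hR', h1 J G hJ hG hxG, rfl⟩, ?_⟩
  intro y hy
  constructor
  · refine closure_mono ?_ hy
    rintro y ⟨i, hi, hyi⟩
    exact ⟨i, hi.1, (hs i hi hyi).1⟩
  · refine hGV (closure_mono ?_ hy)
    rintro y ⟨i, hi, hyi⟩
    exact (hs i hi hyi).2

end

theorem fin_union_lt {α β : Type u} {κ : Cardinal.{u}} (hκ : ℵ₀ ≤ κ) (F : α → Set β) (t : Finset α)
    (h : ∀ x ∈ t, #(F x) < κ) : #{b | ∃ x ∈ t, b ∈ F x} < κ := by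
  classical
  induction t using Finset.induction_on with
  | empty =>
    have h1 : {b | ∃ x ∈ (∅ : Finset α), b ∈ F x} = ∅ := by
      ext b
      simp
    have h2 : #(∅ : Set β) = 0 := by simp
    rw [h1, h2]
    exact lt_of_lt_of_le aleph0_pos hκ
  | insert a t ha ih =>
    have h1 : {b | ∃ x ∈ insert a t, b ∈ F x} = F a ∪ {b | ∃ x ∈ t, b ∈ F x} := by
      ext b
      simp
    rw [h1]
    refine lt_of_le_of_lt (mk_union_le _ _) ?_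
    exact add_lt_of_lt hκ (h a (Finset.mem_insert_self a t)) (ih fun x hx => h x (Finset.mem_insert_of_mem hx))

/-- the letter coding a set of letters -/
def ZZ {I ι : Type u} (A : Set ℕ) (Φ : I → Set X → Set X) (𝒜 : ι → Set I) (a : ι) (F : Set X) : Set X :=
  {x | x ∈ F ∧ x ∉ closure {y | ∃ i ∈ (𝒜 a)ᶜ, y ∈ Φ i F} ∧
    (∀ s : {s : Finset ι // a ∉ s}, x ∈ closure {y | ∃ i ∈ {i | ∀ b ∈ s.1, i ∉ 𝒜 b}, y ∈ Φ i F}) ∧
    ∀ O : Set X, IsOpen O → x ∈ O → #I ≤ #(↥(Gb A F ∩ O))}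

theorem Letr.zz {I ι : Type u} (A : Set ℕ) {Φ : I → Set X → Set X} (h : ∀ i, Letr (Φ i)) (𝒜 : ι → Set I) (a : ι) :
    Letr (ZZ A Φ 𝒜 a) := by
  have h1 := (Letr.any_mem h (𝒜 a)ᶜ).far
  have h2 := Letr.all (κ := {s : Finset ι // a ∉ s}) fun s => (Letr.any_mem h {i | ∀ b ∈ s.1, i ∉ 𝒜 b}).near
  have h3 := (Letr.nb (κ := Unit) (fun _ => Letr.gb (X := X) A) (fun _ d => d < #I)
    fun _ d e hde he => lt_of_le_of_lt hde he).not
  refine (h1.and (h2.and h3)).congr ?_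
  intro F x
  constructor
  · rintro ⟨h4, h5, h6, h7⟩
    refine ⟨⟨h4, h5⟩, ⟨h4, fun s => ⟨h4, h6 s⟩⟩, h4, ?_⟩
    rintro ⟨_, O, hO, hxO, h8⟩
    exact absurd (h7 O hO hxO) (not_le.2 (h8 ()))
  · rintro ⟨⟨h4, h5⟩, ⟨_, h6⟩, _, h7⟩
    refine ⟨h4, h5, fun s => (h6 s).2, fun O hO hxO => ?_⟩
    by_contra h8
    exact h7 ⟨h4, O, hO, hxO, fun _ => not_le.1 h8⟩

theorem power [T2Space X] [CompactSpace X] (hX : CO X) (hE : Expand X) {I ι : Type u} {A : Set ℕ}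
    {c : Cardinal.{u}} {Φ : I → Set X → Set X} {Q : I → Set X → X → Prop} (h : Sys (fun _ : I => A) c Φ Q)
    (hI : ℵ₀ ≤ #I) (hc : c ≤ #I) (𝒜 : ι → Set I)
    (hind : ∀ (a : ι) (s : Finset ι), a ∉ s → #I ≤ #{i | i ∈ 𝒜 a ∧ ∀ b ∈ s, i ∉ 𝒜 b}) :
    ∃ (Φ' : ι → Set X → Set X) (Q' : ι → Set X → X → Prop), Sys (fun _ : ι => A) #I Φ' Q' ∧
      ∀ a F x, x ∈ Φ' a F → ∀ O : Set X, IsOpen O → x ∈ O → #I ≤ #(↥(Gb A F ∩ O)) := by
  classical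
  refine ⟨pur A (ZZ A Φ 𝒜), Std A #I (pur A (ZZ A Φ 𝒜)), sys_of_pre (Letr.zz A h.letr 𝒜) ?_ ?_, ?_⟩
  · intro a F x hx
    have h1 := hx.2.2.1 ⟨∅, by simp⟩
    have h2 : {y | ∃ i ∈ {i | ∀ b ∈ (∅ : Finset ι), i ∉ 𝒜 b}, y ∈ Φ i F} ⊆ closure (Gb A F) := by
      rintro y ⟨i, _, hy⟩
      exact h.see i F y hy
    exact closure_minimal h2 isClosed_closure h1
  · intro a
    obtain ⟨U, z, hU, hP, hz⟩ := h.copies hX
    obtain ⟨x, hx⟩ : ∃ x : X, ∀ s : Finset ι, a ∉ s → ∀ O : Set X, IsOpen O → x ∈ O →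
        #I ≤ #{i | i ∈ 𝒜 a ∧ (∀ b ∈ s, i ∉ 𝒜 b) ∧ z i ∈ O} := by
      by_contra hcon
      push Not at hcon
      choose s hs O hO hxO hlt using hcon
      obtain ⟨t, ht⟩ := CompactSpace.elim_nhds_subcover O fun x => (hO x).mem_nhds (hxO x)
      have h1 := hind a (t.biUnion s) (by
        rw [Finset.mem_biUnion]
        rintro ⟨x, _, hx⟩
        exact hs x hx)
      have h2 : {i | i ∈ 𝒜 a ∧ ∀ b ∈ t.biUnion s, i ∉ 𝒜 b} ⊆
          {i | ∃ x ∈ t, i ∈ {i | i ∈ 𝒜 a ∧ (∀ b ∈ s x, i ∉ 𝒜 b) ∧ z i ∈ O x}} := by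
        rintro i ⟨h3, h4⟩
        have h5 : z i ∈ ⋃ x ∈ t, O x := by
          rw [ht]
          trivial
        obtain ⟨x, h6⟩ := mem_iUnion.1 h5
        obtain ⟨hx, h7⟩ := mem_iUnion.1 h6
        exact ⟨x, hx, h3, fun b hb => h4 b (Finset.mem_biUnion.2 ⟨x, hx, hb⟩), h7⟩
      have h3 := fin_union_lt hI (fun x => {i | i ∈ 𝒜 a ∧ (∀ b ∈ s x, i ∉ 𝒜 b) ∧ z i ∈ O x}) t fun x _ => hlt x
      exact absurd (h1.trans (mk_le_mk_of_subset h2)) (not_le.2 h3)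
    suffices hmain : ∃ T, PP (Std A #I (ZZ A Φ 𝒜) a) T x by
      obtain ⟨T, hT⟩ := hmain
      exact ⟨T, x, hT⟩
    refine exists_PP (Q' := Std A #I (ZZ A Φ 𝒜) a) (x := x) hE h hU hz hP
      (fun J => J ⊆ 𝒜 a ∧ ∀ s : Finset ι, a ∉ s → ∀ O : Set X, IsOpen O → x ∈ O →
        #I ≤ #{i | i ∈ J ∧ (∀ b ∈ s, i ∉ 𝒜 b) ∧ z i ∈ O}) (𝒜 a) ⟨Subset.rfl, hx⟩ ?_ ?_
    · rintro J G ⟨hJ1, hJ2⟩ hG hxG
      refine ⟨fun i hi => hJ1 hi.1, fun s hs O hO hxO => ?_⟩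
      refine (hJ2 s hs (O ∩ G) (hO.inter hG) ⟨hxO, hxG⟩).trans (mk_le_mk_of_subset ?_)
      rintro i ⟨h1, h2, h3, h4⟩
      exact ⟨⟨h1, h4⟩, h2, h3⟩
    · rintro J R hp ⟨hJ1, hJ2⟩
      have hfind : ∀ s : Finset ι, a ∉ s → ∀ O : Set X, IsOpen O → x ∈ O → ∃ i ∈ J, (∀ b ∈ s, i ∉ 𝒜 b) ∧ z i ∈ O := by
        intro s hs O hO hxO
        have h1 : #{i | i ∈ J ∧ (∀ b ∈ s, i ∉ 𝒜 b) ∧ z i ∈ O} ≠ 0 := by
          have h2 := hI.trans (hJ2 s hs O hO hxO)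
          exact (lt_of_lt_of_le aleph0_pos h2).ne'
        obtain ⟨⟨i, hi⟩⟩ := mk_ne_zero_iff.1 h1
        exact ⟨i, hi⟩
      have hnot : ∀ i, i ∉ 𝒜 a → Φ i (Un J R) = ∅ := fun i hi => hp.other h hU hz fun h1 => hi (hJ1 h1)
      refine ⟨isClosed_closure, ⟨?_, ?_, ?_, ?_⟩, ?_, ?_, ?_⟩
      · refine hp.zcl h (mem_closure_iff.2 fun O hO hxO => ?_)
        obtain ⟨i, hi, _, hzi⟩ := hfind ∅ (by simp) O hO hxO
        exact ⟨z i, hzi, i, hi, rfl⟩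
      · have h1 : {y | ∃ i ∈ (𝒜 a)ᶜ, y ∈ Φ i (Un J R)} = ∅ := by
          rw [Set.eq_empty_iff_forall_notMem]
          rintro y ⟨i, hi, hy⟩
          rw [hnot i hi] at hy
          exact hy
        rw [h1, closure_empty]
        exact Set.notMem_empty x
      · rintro ⟨s, hs⟩
        refine mem_closure_iff.2 fun O hO hxO => ?_
        obtain ⟨i, hi, h1, hzi⟩ := hfind s hs O hO hxO
        exact ⟨z i, hzi, i, h1, hp.z_Phi h hU hz hi⟩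
      · intro O hO hxO
        refine (hJ2 ∅ (by simp) O hO hxO).trans ?_
        have hg : ∀ i : {i | i ∈ J ∧ (∀ b ∈ (∅ : Finset ι), i ∉ 𝒜 b) ∧ z i ∈ O}, ∃ g ∈ O, g ∈ R i ∧
            g ∈ Gb A (Un J R) := fun i => hp.see h hU hz i.2.1 hO i.2.2.2
        choose g hg1 hg2 hg3 using hg
        refine mk_le_of_injective (f := fun i => (⟨g i, hg3 i, hg1 i⟩ : ↥(Gb A (Un J R) ∩ O))) ?_
        intro i j hij
        have h1 : g i = g j := congrArg Subtype.val hij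
        have h2 := hg2 i
        rw [h1] at h2
        exact Subtype.ext (hp.disj hU hz i.2.1 j.2.1 h2 (hg2 j))
      · intro b hb
        rw [Set.eq_empty_iff_forall_notMem]
        intro w hw
        have h1 := hw.2.2.1 ⟨{a}, by simpa using hb⟩
        have h2 : {y | ∃ i ∈ {i | ∀ b' ∈ ({a} : Finset ι), i ∉ 𝒜 b'}, y ∈ Φ i (Un J R)} = ∅ := by
          rw [Set.eq_empty_iff_forall_notMem]
          rintro y ⟨i, hi, hy⟩
          rw [hnot i (hi a (Finset.mem_singleton_self a))] at hy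
          exact hy
        rw [h2, closure_empty] at h1
        exact h1
      · rw [Set.eq_empty_iff_forall_notMem]
        intro w hw
        obtain ⟨i, _, m, hm, _⟩ := hp.gb_sub h hU hz Aᶜ hw
        exact hm.1 hm.2
      · refine (hp.gb_card h hU hz A).trans ?_
        refine (mul_le_mul_right hc _).trans ?_
        rw [mul_eq_self hI]
  · intro a F x hx O hO hxO
    exact hx.1.2.2.2 O hO hxO

/-- a large independent family -/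
theorem exists_ind (I : Type u) (hI : ℵ₀ ≤ #I) : ∃ 𝒜 : Set I → Set I,
    ∀ (a : Set I) (s : Finset (Set I)), a ∉ s → #I ≤ #{i | i ∈ 𝒜 a ∧ ∀ b ∈ s, i ∉ 𝒜 b} := by
  classical
  have : Infinite I := infinite_iff.2 hI
  have h1 : #(I × (Finset I × Finset I)) = #I := by
    simp only [mk_prod, lift_id, mk_finset_of_infinite, mul_eq_self hI]
  obtain ⟨e⟩ := Cardinal.eq.1 h1
  refine ⟨fun a => {i | ∀ x ∈ (e.symm i).2.1, (x ∈ (e.symm i).2.2 ↔ x ∈ a)}, fun a s has => ?_⟩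
  have hdiff : ∀ b ∈ s, ∃ x : I, ¬ (x ∈ a ↔ x ∈ b) := by
    intro b hb
    by_contra hcon
    push Not at hcon
    have h2 : a = b := Set.ext hcon
    rw [h2] at has
    exact has hb
  choose! y hy using hdiff
  let F : Finset I := s.image y
  let G : Finset I := F.filter fun x => x ∈ a
  refine mk_le_of_injective (f := fun i : I => (⟨e (i, F, G), ?_, ?_⟩ : {i | i ∈ {i | ∀ x ∈ (e.symm i).2.1,
    (x ∈ (e.symm i).2.2 ↔ x ∈ a)} ∧ ∀ b ∈ s, i ∉ {i | ∀ x ∈ (e.symm i).2.1, (x ∈ (e.symm i).2.2 ↔ x ∈ b)}})) ?_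
  · intro x hx
    rw [e.symm_apply_apply] at hx ⊢
    exact ⟨fun h2 => (Finset.mem_filter.1 h2).2, fun h2 => Finset.mem_filter.2 ⟨hx, h2⟩⟩
  · intro b hb h2
    have hyF : y b ∈ F := Finset.mem_image_of_mem y hb
    have h3 := h2 (y b) (by rw [e.symm_apply_apply]; exact hyF)
    rw [e.symm_apply_apply] at h3
    refine hy b hb ⟨fun h4 => h3.1 (Finset.mem_filter.2 ⟨hyF, h4⟩), fun h4 => (Finset.mem_filter.1 (h3.2 h4)).2⟩
  · intro i j hij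
    have h2 : e (i, F, G) = e (j, F, G) := congrArg Subtype.val hij
    exact congrArg Prod.fst (e.injective h2)

end Pool.Agent.Lib.MP_77266e_gtM
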