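import Pool.Agent.Lib.MP_77266e_gtM.Letr
import Pool.Agent.Lib.MP_77266e_gtM.Main

/-!
# Systems of mutually exclusive letters, closures of unions of test sets
-/

namespace Pool.Agent.Lib.MP_77266e_gtM

open Set Filter Topology Cardinal

universe u

variable {X : Type u} [TopologicalSpace X]

/-- `T` belongs to a family of sets satisfying `Q · x` which is closed under shrinking to neighbourhoods of `x` -/
def PP (Q : Set X → X → Prop) (T : Set X) (x : X) : Prop :=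
  ∃ 𝓕 : Set (Set X), T ∈ 𝓕 ∧ ∀ R ∈ 𝓕, Q R x ∧ ∀ V, IsOpen V → x ∈ V → ∃ R' ∈ 𝓕, R' ⊆ R ∩ V

theorem PP.q {Q : Set X → X → Prop} {T : Set X} {x : X} (h : PP Q T x) : Q T x := by
  obtain ⟨𝓕, hT, h⟩ := h
  exact (h T hT).1

theorem PP.shrink {Q : Set X → X → Prop} {T : Set X} {x : X} (h : PP Q T x) {V : Set X} (hV : IsOpen V) (hx : x ∈ V) :
    ∃ T', T' ⊆ T ∩ V ∧ PP Q T' x := by
  obtain ⟨𝓕, hT, h⟩ := h
  obtain ⟨T', hT', hs⟩ := (h T hT).2 V hV hx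
  exact ⟨T', hs, 𝓕, hT', h⟩

theorem PP.mono {Q Q' : Set X → X → Prop} {T : Set X} {x : X} (hQ : ∀ R, Q R x → Q' R x) (h : PP Q T x) :
    PP Q' T x := by
  obtain ⟨𝓕, hT, h⟩ := h
  exact ⟨𝓕, hT, fun R hR => ⟨hQ R (h R hR).1, (h R hR).2⟩⟩

theorem PP.inv {Q : Set X → X → Prop}
    (hQ : ∀ (T : Set X) (f : T → X) (x : T), IsEmbedding f → Q T x → Q (range f) (f x))
    (hm : ∀ R x, Q R x → x ∈ R) {T : Set X} (f : T → X) (x : T) (hf : IsEmbedding f) (h : PP Q T x) :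
    PP Q (range f) (f x) := by
  obtain ⟨𝓕, hT, h⟩ := h
  refine ⟨{R' | ∃ (R : Set X) (_ : R ∈ 𝓕) (hs : R ⊆ T), R' = range (f ∘ inclusion hs)}, ⟨T, hT, Subset.rfl, ?_⟩, ?_⟩
  · congr 1
  · rintro _ ⟨R, hR, hs, rfl⟩
    obtain ⟨h1, h2⟩ := h R hR
    have hxR := hm R x h1
    refine ⟨hQ R (f ∘ inclusion hs) ⟨x, hxR⟩ (hf.comp (IsEmbedding.inclusion hs)) h1, fun V hV hxV => ?_⟩
    obtain ⟨N, hN, hNV⟩ := exists_open_left hf hV
    obtain ⟨R', hR', hs'⟩ := h2 N hN ((hNV x).1 hxV)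
    refine ⟨_, ⟨R', hR', fun y hy => hs (hs' hy).1, rfl⟩, ?_⟩
    rintro _ ⟨y, rfl⟩
    refine ⟨⟨⟨y, (hs' y.2).1⟩, rfl⟩, ?_⟩
    exact (hNV _).2 (hs' y.2).2

/-- systems of mutually exclusive letters with test sets; the letter `i` is built from basic letters with numbers
in `B i` -/
structure Sys {I : Type u} (B : I → Set ℕ) (c : Cardinal.{u}) (Φ : I → Set X → Set X) (Q : I → Set X → X → Prop) :
    Prop where
  letr : ∀ i, Letr (Φ i)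
  ex : ∀ i F x, x ∈ Φ i F → ∃ O : Set X, IsOpen O ∧ x ∈ O ∧ ∀ j, j ≠ i → ∀ y ∈ O, y ∉ Φ j F
  sep : ∀ i F x, x ∈ Φ i F → x ∉ closure (Gb (B i)ᶜ F)
  see : ∀ i F x, x ∈ Φ i F → x ∈ closure (Gb (B i) F)
  cl : ∀ i T x, Q i T x → IsClosed T
  mem : ∀ i T x, Q i T x → x ∈ Φ i T
  oth : ∀ i T x, Q i T x → ∀ j, j ≠ i → Φ j T = ∅
  free : ∀ i T x, Q i T x → Gb (B i)ᶜ T = ∅
  card : ∀ i T x, Q i T x → #(Gb (B i) T) ≤ c
  inv : ∀ i (T : Set X) (f : T → X) (x : T), IsEmbedding f → Q i T x → Q i (range f) (f x)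
  ne : ∀ i, ∃ T x, PP (Q i) T x

theorem closed_range [T2Space X] [CompactSpace X] {T : Set X} (hT : IsClosed T) {f : T → X} (hf : IsEmbedding f) :
    IsClosed (range f) := by
  have : CompactSpace T := isCompact_iff_compactSpace.1 hT.isCompact
  exact (isCompact_range hf.continuous).isClosed

/-- the standard test sets -/
def Std {I : Type u} (A : Set ℕ) (c : Cardinal.{u}) (Φ : I → Set X → Set X) (i : I) (T : Set X) (x : X) : Prop :=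
  IsClosed T ∧ x ∈ Φ i T ∧ (∀ j, j ≠ i → Φ j T = ∅) ∧ Gb Aᶜ T = ∅ ∧ #(Gb A T) ≤ c

theorem Letr.empty {Ψ : Set X → Set X} (h : Letr Ψ) {F : Set X} {f : F → X} (hf : IsEmbedding f) (hE : Ψ F = ∅) :
    Ψ (range f) = ∅ := by
  rw [Set.eq_empty_iff_forall_notMem] at hE ⊢
  intro y hy
  obtain ⟨x, rfl⟩ := h.sub _ hy
  exact hE x ((h.inv F f hf x).2 hy)

theorem Std.inv [T2Space X] [CompactSpace X] {I : Type u} {A : Set ℕ} {c : Cardinal.{u}} {Φ : I → Set X → Set X}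
    (h : ∀ i, Letr (Φ i)) (i : I) (T : Set X) (f : T → X) (x : T) (hf : IsEmbedding f) (hQ : Std A c Φ i T x) :
    Std A c Φ i (range f) (f x) := by
  obtain ⟨h1, h2, h3, h4, h5⟩ := hQ
  refine ⟨closed_range h1 hf, ((h i).inv T f hf x).1 h2, fun j hj => (h j).empty hf (h3 j hj),
    (Letr.gb _).empty hf h4, ?_⟩
  have h6 := (Letr.gb A).card_eq hf (O := univ) (O' := univ) fun y => ⟨fun _ => trivial, fun _ => trivial⟩
  rw [inter_univ, inter_univ] at h6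
  rw [h6]
  exact h5

/-- purified letters -/
def pur {I : Type u} (A : Set ℕ) (Φ : I → Set X → Set X) (i : I) (F : Set X) : Set X :=
  {x | x ∈ Φ i F ∧ x ∉ closure {y | ∃ j ∈ {j | j ≠ i}, y ∈ Φ j F} ∧ x ∉ closure (Gb Aᶜ F)}

theorem pur_sub {I : Type u} {A : Set ℕ} {Φ : I → Set X → Set X} {i : I} {F : Set X} : pur A Φ i F ⊆ Φ i F :=
  fun _ h => h.1

theorem Letr.pur {I : Type u} (A : Set ℕ) {Φ : I → Set X → Set X} (h : ∀ i, Letr (Φ i)) (i : I) :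
    Letr (pur A Φ i) := by
  refine ((h i).and ((Letr.any_mem h {j | j ≠ i}).far.and (Letr.gb Aᶜ).far)).congr ?_
  intro F x
  constructor
  · rintro ⟨h1, h2, h3⟩
    have h4 := (h i).sub F h1
    exact ⟨h1, ⟨h4, h2⟩, ⟨h4, h3⟩⟩
  · rintro ⟨h1, ⟨_, h2⟩, ⟨_, h3⟩⟩
    exact ⟨h1, h2, h3⟩

theorem Std.pur {I : Type u} {A : Set ℕ} {c : Cardinal.{u}} {Φ : I → Set X → Set X} {i : I} {T : Set X} {x : X}
    (h : Std A c Φ i T x) : Std A c (pur A Φ) i T x := by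
  obtain ⟨h1, h2, h3, h4, h5⟩ := h
  refine ⟨h1, ⟨h2, ?_, ?_⟩, fun j hj => ?_, h4, h5⟩
  · have h6 : {y | ∃ j ∈ {j | j ≠ i}, y ∈ Φ j T} = ∅ := by
      rw [Set.eq_empty_iff_forall_notMem]
      rintro y ⟨j, hj, hy⟩
      rw [h3 j hj] at hy
      exact hy
    rw [h6, closure_empty]
    exact Set.notMem_empty x
  · rw [h4, closure_empty]
    exact Set.notMem_empty x
  · exact Set.subset_empty_iff.1 (pur_sub.trans (h3 j hj).subset)

/-- a system from letters which need not be mutually exclusive -/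
theorem sys_of_pre [T2Space X] [CompactSpace X] {I : Type u} {A : Set ℕ} {c : Cardinal.{u}} {Φ : I → Set X → Set X}
    (h : ∀ i, Letr (Φ i)) (see : ∀ i F x, x ∈ Φ i F → x ∈ closure (Gb A F)) (ne : ∀ i, ∃ T x, PP (Std A c Φ i) T x) :
    Sys (fun _ => A) c (pur A Φ) (Std A c (pur A Φ)) where
  letr := Letr.pur A h
  ex := by
    intro i F x hx
    refine ⟨(closure {y | ∃ j ∈ {j | j ≠ i}, y ∈ Φ j F})ᶜ, isClosed_closure.isOpen_compl, hx.2.1, ?_⟩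
    intro j hj y hy hyj
    exact hy (subset_closure ⟨j, hj, hyj.1⟩)
  sep := fun i F x hx => hx.2.2
  see := fun i F x hx => see i F x hx.1
  cl := fun i T x h => h.1
  mem := fun i T x h => h.2.1
  oth := fun i T x h => h.2.2.1
  free := fun i T x h => h.2.2.2.1
  card := fun i T x h => h.2.2.2.2
  inv := fun i T f x hf hQ => Std.inv (Letr.pur A h) i T f x hf hQ
  ne := fun i => by
    obtain ⟨T, x, hT⟩ := ne i
    exact ⟨T, x, hT.mono fun R => Std.pur⟩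

theorem Sys.mono {I : Type u} {B : I → Set ℕ} {c d : Cardinal.{u}} {Φ : I → Set X → Set X}
    {Q : I → Set X → X → Prop} (h : Sys B c Φ Q) (hcd : c ≤ d) : Sys B d Φ Q :=
  ⟨h.letr, h.ex, h.sep, h.see, h.cl, h.mem, h.oth, h.free, fun i T x hQ => (h.card i T x hQ).trans hcd, h.inv, h.ne⟩

theorem Sys.comp {I J : Type u} {B : I → Set ℕ} {c : Cardinal.{u}} {Φ : I → Set X → Set X}
    {Q : I → Set X → X → Prop} (h : Sys B c Φ Q) {g : J → I} (hg : Function.Injective g) :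
    Sys (fun j => B (g j)) c (fun j => Φ (g j)) (fun j => Q (g j)) where
  letr := fun i => h.letr (g i)
  ex := by
    intro i F x hx
    obtain ⟨O, hO, hxO, h1⟩ := h.ex (g i) F x hx
    exact ⟨O, hO, hxO, fun j hj => h1 (g j) fun hh => hj (hg hh)⟩
  sep := fun i => h.sep (g i)
  see := fun i => h.see (g i)
  cl := fun i => h.cl (g i)
  mem := fun i => h.mem (g i)
  oth := fun i T x hQ j hj => h.oth (g i) T x hQ (g j) fun hh => hj (hg hh)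
  free := fun i => h.free (g i)
  card := fun i => h.card (g i)
  inv := fun i => h.inv (g i)
  ne := fun i => h.ne (g i)

section Copies

variable {I : Type u} {B : I → Set ℕ} {c : Cardinal.{u}} {Φ : I → Set X → Set X} {Q : I → Set X → X → Prop}

theorem Sys.mem_of (h : Sys B c Φ Q) {i : I} {T : Set X} {x : X} (hQ : Q i T x) : x ∈ T :=
  (h.letr i).sub T (h.mem i T x hQ)

/-- clopen copies of the test sets -/
theorem Sys.copies (h : Sys B c Φ Q) (hX : CO X) : ∃ (U : I → Set X) (z : I → X), (∀ i, IsOpen (U i)) ∧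
    (∀ i, PP (Q i) (U i) (z i)) ∧ ∀ i j, j ≠ i → z j ∉ U i := by
  have h1 : ∀ i, ∃ (U : Set X) (z : X), IsOpen U ∧ PP (Q i) U z := by
    intro i
    obtain ⟨T, x, hT⟩ := h.ne i
    have hTc := h.cl i T x hT.q
    have hxT := h.mem_of hT.q
    obtain ⟨φ, hφ, hU⟩ := exists_copy hX hTc
    refine ⟨range φ, φ ⟨x, hxT⟩, hU.isOpen, ?_⟩
    exact PP.inv (h.inv i) (fun R y hR => h.mem_of hR) φ ⟨x, hxT⟩ hφ hT
  choose U z hU hP using h1
  refine ⟨U, z, hU, hP, fun i j hji hz => ?_⟩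
  have h2 : z j ∈ Φ j (U j) := h.mem j _ _ (hP j).q
  have h3 : z j ∈ Φ j univ := by
    have h4 := (h.letr j).loc univ (U j) (z j) (hU j) ((h.letr j).sub _ h2)
    rw [univ_inter] at h4
    exact h4.1 h2
  have h5 := (h.letr j).loc univ (U i) (z j) (hU i) hz
  rw [univ_inter] at h5
  have h6 := h5.2 h3
  rw [h.oth i _ _ (hP i).q j hji] at h6
  exact h6

/-- the index set of a system is not larger than the space -/
theorem Sys.card_le (h : Sys B c Φ Q) (hX : CO X) : #I ≤ #X := by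
  obtain ⟨U, z, hU, hP, hz⟩ := h.copies hX
  refine mk_le_of_injective (f := z) ?_
  intro i j hij
  by_contra hne
  refine hz i j (fun hh => hne hh.symm) ?_
  rw [← hij]
  exact h.mem_of (hP i).q

end Copies

/-- every discrete subset has an expansion which is discrete outside of the boundary of the subset -/
def Expand (X : Type u) [TopologicalSpace X] : Prop :=
  ∀ S : Set X, (∀ x ∈ S, ∃ U : Set X, IsOpen U ∧ U ∩ S = {x}) → ∃ V : X → Set X, (∀ x ∈ S, IsOpen (V x) ∧ x ∈ V x) ∧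
    ∀ y, (y ∈ closure S → y ∈ S) → ∃ N : Set X, IsOpen N ∧ y ∈ N ∧
      ∀ a ∈ S, ∀ b ∈ S, (N ∩ V a).Nonempty → (N ∩ V b).Nonempty → a = b

/-- the data of a union of test sets -/
structure Pk {I : Type u} (Q : I → Set X → X → Prop) (U : I → Set X) (z : I → X) (J : Set I) (R : I → Set X) :
    Prop where
  pp : ∀ i ∈ J, PP (Q i) (R i) (z i)
  sub : ∀ i ∈ J, R i ⊆ U i
  dd : ∀ y, (y ∈ closure (z '' J) → y ∈ z '' J) → ∃ N : Set X, IsOpen N ∧ y ∈ N ∧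
    ∀ i ∈ J, ∀ j ∈ J, (N ∩ R i).Nonempty → (N ∩ R j).Nonempty → i = j

/-- the closure of the union -/
def Un {I : Type u} (J : Set I) (R : I → Set X) : Set X := closure {x | ∃ i ∈ J, x ∈ R i}

section Union

variable {I : Type u} {B : I → Set ℕ} {c : Cardinal.{u}} {Φ : I → Set X → Set X} {Q : I → Set X → X → Prop}
  {U : I → Set X} {z : I → X} {J : Set I} {R : I → Set X}

theorem Pk.sub_Un (i : I) (hi : i ∈ J) : R i ⊆ Un J R := fun _ hx => subset_closure ⟨i, hi, hx⟩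

theorem Pk.z_mem (h : Sys B c Φ Q) (hp : Pk Q U z J R) {i : I} (hi : i ∈ J) : z i ∈ R i := h.mem_of (hp.pp i hi).q

theorem Pk.zcl (h : Sys B c Φ Q) (hp : Pk Q U z J R) : closure (z '' J) ⊆ Un J R := by
  refine closure_mono ?_
  rintro _ ⟨i, hi, rfl⟩
  exact ⟨i, hi, hp.z_mem h hi⟩

theorem Pk.cases (h : Sys B c Φ Q) (hp : Pk Q U z J R) {w : X} (hw : w ∈ Un J R) :
    (∃ i ∈ J, w ∈ R i) ∨ (w ∈ closure (z '' J) ∧ ∀ i ∈ J, w ∉ R i) := by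
  by_cases h1 : ∃ i ∈ J, w ∈ R i
  · exact Or.inl h1
  refine Or.inr ⟨?_, fun i hi hwi => h1 ⟨i, hi, hwi⟩⟩
  by_contra h2
  obtain ⟨N, hN, hwN, hNN⟩ := hp.dd w fun h3 => absurd h3 h2
  obtain ⟨y, hyN, i, hi, hyi⟩ := mem_closure_iff.1 hw N hN hwN
  have h3 : w ∈ closure (R i) := by
    rw [mem_closure_iff]
    intro O hO hwO
    obtain ⟨y', ⟨hy1, hy2⟩, j, hj, hyj⟩ := mem_closure_iff.1 hw (O ∩ N) (hO.inter hN) ⟨hwO, hwN⟩
    have h4 := hNN i hi j hj ⟨y, hyN, hyi⟩ ⟨y', hy2, hyj⟩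
    rw [← h4] at hyj
    exact ⟨y', hy1, hyj⟩
  rw [(h.cl i _ _ (hp.pp i hi).q).closure_eq] at h3
  exact h1 ⟨i, hi, h3⟩

theorem Pk.dd' [T1Space X] (hU : ∀ i, IsOpen (U i)) (hz : ∀ i j, j ≠ i → z j ∉ U i) (hp : Pk Q U z J R)
    {i : I} (hi : i ∈ J) {w : X} (hw : w ∈ R i) : ∃ N : Set X, IsOpen N ∧ w ∈ N ∧
      ∀ j ∈ J, (N ∩ R j).Nonempty → i = j := by
  have h0 : w ∈ closure (z '' J) → w ∈ z '' J := by
    intro h1
    refine ⟨i, hi, ?_⟩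
    by_contra hne
    obtain ⟨_, ⟨hy1, hy2⟩, j, hj, rfl⟩ := mem_closure_iff.1 h1 (U i ∩ {z i}ᶜ) ((hU i).inter isOpen_compl_singleton)
      ⟨hp.sub i hi hw, fun h2 => hne h2.symm⟩
    by_cases hji : j = i
    · rw [hji] at hy2
      exact hy2 rfl
    · exact hz i j hji hy1
  obtain ⟨N, hN, hwN, hNN⟩ := hp.dd w h0
  exact ⟨N, hN, hwN, fun j hj h1 => hNN i hi j hj ⟨w, hwN, hw⟩ h1⟩

theorem Pk.disj [T1Space X] (hU : ∀ i, IsOpen (U i)) (hz : ∀ i j, j ≠ i → z j ∉ U i) (hp : Pk Q U z J R)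
    {i j : I} (hi : i ∈ J) (hj : j ∈ J) {w : X} (hwi : w ∈ R i) (hwj : w ∈ R j) : i = j := by
  obtain ⟨N, hN, hwN, h1⟩ := hp.dd' hU hz hi hwi
  exact h1 j hj ⟨w, hwN, hwj⟩

theorem Pk.nb [T1Space X] (h : Sys B c Φ Q) (hU : ∀ i, IsOpen (U i)) (hz : ∀ i j, j ≠ i → z j ∉ U i)
    (hp : Pk Q U z J R) {i : I} (hi : i ∈ J) {w : X} (hw : w ∈ R i) :
    ∃ N : Set X, IsOpen N ∧ w ∈ N ∧ Un J R ∩ N = R i ∩ N := by
  obtain ⟨N, hN, hwN, h1⟩ := hp.dd' hU hz hi hw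
  refine ⟨N, hN, hwN, ?_⟩
  ext y
  constructor
  · rintro ⟨hy1, hy2⟩
    refine ⟨?_, hy2⟩
    rw [← (h.cl i _ _ (hp.pp i hi).q).closure_eq, mem_closure_iff]
    intro O hO hyO
    obtain ⟨y', ⟨hy3, hy4⟩, j, hj, hyj⟩ := mem_closure_iff.1 hy1 (O ∩ N) (hO.inter hN) ⟨hyO, hy2⟩
    have h4 := h1 j hj ⟨y', hy4, hyj⟩
    rw [← h4] at hyj
    exact ⟨y', hy3, hyj⟩
  · rintro ⟨hy1, hy2⟩
    exact ⟨Pk.sub_Un i hi hy1, hy2⟩

theorem Pk.letter [T1Space X] (h : Sys B c Φ Q) (hU : ∀ i, IsOpen (U i)) (hz : ∀ i j, j ≠ i → z j ∉ U i)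
    (hp : Pk Q U z J R) {Ψ : Set X → Set X} (hΨ : Letr Ψ) {i : I} (hi : i ∈ J) {w : X} (hw : w ∈ R i) :
    w ∈ Ψ (Un J R) ↔ w ∈ Ψ (R i) := by
  obtain ⟨N, hN, hwN, h1⟩ := hp.nb h hU hz hi hw
  rw [← hΨ.loc (Un J R) N w hN hwN, h1, hΨ.loc (R i) N w hN hwN]

theorem Pk.z_Phi [T1Space X] (h : Sys B c Φ Q) (hU : ∀ i, IsOpen (U i)) (hz : ∀ i j, j ≠ i → z j ∉ U i)
    (hp : Pk Q U z J R) {i : I} (hi : i ∈ J) : z i ∈ Φ i (Un J R) :=
  (hp.letter h hU hz (h.letr i) hi (hp.z_mem h hi)).2 (h.mem i _ _ (hp.pp i hi).q)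

theorem Pk.see [T1Space X] (h : Sys B c Φ Q) (hU : ∀ i, IsOpen (U i)) (hz : ∀ i j, j ≠ i → z j ∉ U i)
    (hp : Pk Q U z J R) {i : I} (hi : i ∈ J) {O : Set X} (hO : IsOpen O) (hzO : z i ∈ O) :
    ∃ g ∈ O, g ∈ R i ∧ g ∈ Gb (B i) (Un J R) := by
  have h1 := h.see i _ _ (h.mem i _ _ (hp.pp i hi).q)
  obtain ⟨g, hgO, hg⟩ := mem_closure_iff.1 h1 O hO hzO
  have hgR := (Letr.gb (B i)).sub _ hg
  exact ⟨g, hgO, hgR, (hp.letter h hU hz (Letr.gb (B i)) hi hgR).2 hg⟩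

theorem Pk.other [T1Space X] (h : Sys B c Φ Q) (hU : ∀ i, IsOpen (U i)) (hz : ∀ i j, j ≠ i → z j ∉ U i)
    (hp : Pk Q U z J R) {j : I} (hj : j ∉ J) : Φ j (Un J R) = ∅ := by
  rw [Set.eq_empty_iff_forall_notMem]
  intro w hw
  rcases hp.cases h ((h.letr j).sub _ hw) with ⟨i, hi, hwi⟩ | ⟨hwc, _⟩
  · have h1 := (hp.letter h hU hz (h.letr j) hi hwi).1 hw
    have hji : j ≠ i := by
      rintro rfl
      exact hj hi
    rw [h.oth i _ _ (hp.pp i hi).q j hji] at h1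
    exact h1
  · obtain ⟨O, hO, hwO, h1⟩ := h.ex j _ _ hw
    obtain ⟨_, hzO, i, hi, rfl⟩ := mem_closure_iff.1 hwc O hO hwO
    refine h1 i ?_ (z i) hzO (hp.z_Phi h hU hz hi)
    rintro rfl
    exact hj hi

theorem Pk.basic [T1Space X] (h : Sys B c Φ Q) (hU : ∀ i, IsOpen (U i)) (hz : ∀ i j, j ≠ i → z j ∉ U i)
    (hp : Pk Q U z J R) {m : ℕ} {w : X} (hw : w ∈ Bl m (Un J R)) : ∃ i ∈ J, w ∈ R i ∧ m ∈ B i ∧ w ∈ Bl m (R i) := by
  rcases hp.cases h ((Letr.bl m).sub _ hw) with ⟨i, hi, hwi⟩ | ⟨hwc, hwn⟩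
  · have h1 := (hp.letter h hU hz (Letr.bl m) hi hwi).1 hw
    refine ⟨i, hi, hwi, ?_, h1⟩
    by_contra hm
    have h2 : w ∈ Gb (B i)ᶜ (R i) := ⟨m, hm, h1⟩
    rw [h.free i _ _ (hp.pp i hi).q] at h2
    exact h2
  · exfalso
    obtain ⟨O, hO, hwO, h1⟩ := Bl_iso hw
    obtain ⟨_, hzO, i, hi, rfl⟩ := mem_closure_iff.1 hwc O hO hwO
    obtain ⟨g, hgO, hgR, k, _, hg⟩ := hp.see h hU hz hi hO hzO
    have h2 := (h1 k g hgO hg).1
    rw [h2] at hgR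
    exact hwn i hi hgR

theorem Pk.gb_sub [T1Space X] (h : Sys B c Φ Q) (hU : ∀ i, IsOpen (U i)) (hz : ∀ i j, j ≠ i → z j ∉ U i)
    (hp : Pk Q U z J R) (A : Set ℕ) {w : X} (hw : w ∈ Gb A (Un J R)) : ∃ i ∈ J, w ∈ Gb (A ∩ B i) (R i) := by
  obtain ⟨m, hm, hwm⟩ := hw
  obtain ⟨i, hi, hwi, hmB, hw2⟩ := hp.basic h hU hz hwm
  exact ⟨i, hi, m, ⟨hm, hmB⟩, hw2⟩

theorem Pk.gb_card [T1Space X] (h : Sys B c Φ Q) (hU : ∀ i, IsOpen (U i)) (hz : ∀ i j, j ≠ i → z j ∉ U i)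
    (hp : Pk Q U z J R) (A : Set ℕ) : #(Gb A (Un J R)) ≤ #I * c := by
  have h1 : Gb A (Un J R) ⊆ ⋃ i : I, {w | i ∈ J ∧ w ∈ Gb (A ∩ B i) (R i)} := by
    intro w hw
    obtain ⟨i, hi, hwi⟩ := hp.gb_sub h hU hz A hw
    exact mem_iUnion.2 ⟨i, hi, hwi⟩
  refine (mk_le_mk_of_subset h1).trans ((mk_iUnion_le _).trans ?_)
  refine mul_le_mul_right ?_ _
  refine ciSup_le' fun i => ?_
  by_cases hi : i ∈ J
  · refine le_trans (mk_le_mk_of_subset ?_) (h.card i _ _ (hp.pp i hi).q)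
    intro w hw
    exact Gb_mono inter_subset_right _ hw.2
  · have h2 : {w | i ∈ J ∧ w ∈ Gb (A ∩ B i) (R i)} = ∅ := by
      rw [Set.eq_empty_iff_forall_notMem]
      rintro w ⟨h3, _⟩
      exact hi h3
    rw [h2]
    simp

end Union

end Pool.Agent.Lib.MP_77266e_gtM
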