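import Pool.Agent.Lib.MP_77266e_gtM.Wedge

/-!
# Closed sets with prescribed letters
-/

namespace Pool.Agent.Lib.MP_77266e_gtM

open Set Filter Topology

universe u

variable {X : Type u} [TopologicalSpace X]

/-- scattered sets of height `m + 1` -/
structure IsS (m : ℕ) (S : Set X) : Prop where
  cl : IsClosed S
  top : D S (m + 1) = ∅
  ne : ∀ j ≤ m, (J S j).Nonempty
  dense : ∀ j, D S j ⊆ closure (J S j)

/-- sets with the only letter `n` -/
structure IsT (n : ℕ) (T : Set X) : Prop where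
  cl : IsClosed T
  ex : ∃ q ∈ T, Lt T n q
  un : ∀ m, ∀ x ∈ T, Lt T m x → m = n
  ne : ∀ j ≤ n, (J T j).Nonempty
  cr : ∃ C : Set X, C ⊆ T ∧ C.Nonempty ∧ Crowded C

/-- `K` is closed, without isolated points, and every open set meeting `K` contains disjoint open sets meeting `K`
which converge to a point of `K` -/
structure Good (K : Set X) : Prop where
  cl : IsClosed K
  cr : Crowded K
  ws : ∀ V : Set X, IsOpen V → (V ∩ K).Nonempty → ∃ p ∈ V ∩ K, ∃ O : ℕ → Set X, (∀ k, IsOpen (O k)) ∧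
    (∀ k, O k ⊆ V) ∧ (∀ k, p ∉ O k) ∧ (∀ k l, k ≠ l → Disjoint (O k) (O l)) ∧ (∀ k, (O k ∩ K).Nonempty) ∧
    (∀ N : Set X, IsOpen N → p ∈ N → ∀ᶠ k in atTop, O k ∩ K ⊆ N)

/-- it is enough that the points of countable character are dense -/
theorem Good.of_cc [T2Space X] {K : Set X} (hcl : IsClosed K) (hcr : Crowded K)
    (hcc : ∀ V : Set X, IsOpen V → (V ∩ K).Nonempty → ∃ p ∈ V ∩ K, (𝓝[K] p).IsCountablyGenerated) : Good K := by
  refine ⟨hcl, hcr, fun V hV hVK => ?_⟩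
  obtain ⟨p, hp, hpc⟩ := hcc V hV hVK
  obtain ⟨O, h⟩ := wedge_seq (hcr p hp.2) hpc V hV hp.1
  exact ⟨p, hp, O, h⟩

theorem IsS_zero [T1Space X] (x : X) : IsS 0 ({x} : Set X) := by
  have h1 : D ({x} : Set X) 1 = ∅ := by
    rw [Set.eq_empty_iff_forall_notMem]
    rintro y ⟨hy1, hy2⟩
    have hy3 : y = x := hy1
    subst hy3
    rw [D_zero, Set.sdiff_self, closure_empty] at hy2
    exact hy2
  have h2 : J ({x} : Set X) 0 = {x} := by
    unfold J
    rw [zero_add, h1, D_zero, Set.sdiff_empty]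
  refine ⟨isClosed_singleton, h1, ?_, ?_⟩
  · intro j hj
    rw [Nat.le_zero.1 hj, h2]
    exact singleton_nonempty x
  · intro j
    rcases Nat.eq_zero_or_pos j with rfl | hj
    · rw [h2]
      exact subset_closure
    · intro y hy
      have hy2 := D_anti ({x} : Set X) hj hy
      rw [h1] at hy2
      exact absurd hy2 (Set.notMem_empty y)

theorem IsS_succ [T2Space X] {K : Set X} {p : X} {O F : ℕ → Set X} {m : ℕ} (h : Wdg K p O F) (hF : ∀ k, IsS m (F k)) :
    IsS (m + 1) (wdg p F) := by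
  have hDne : ∀ j ≤ m, ∃ᶠ k in atTop, (D (F k) j).Nonempty := fun j hj =>
    Frequently.of_forall fun k => ((hF k).ne j hj).mono (J_subset _ _)
  have hp1 : ∀ j ≤ m + 1, p ∈ D (wdg p F) j := fun j hj => h.p_mem fun i hi => hDne i (by omega)
  have hp2 : p ∉ D (wdg p F) (m + 2) := h.p_not_mem fun k => (hF k).top
  have htop : D (wdg p F) (m + 1 + 1) = ∅ := by
    rw [Set.eq_empty_iff_forall_notMem]
    intro x hx
    rcases h.cases hx with rfl | ⟨k, hk⟩
    · exact hp2 hx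
    · have hk2 := D_succ_subset _ _ hk
      rw [(hF k).top] at hk2
      exact hk2
  refine ⟨h.closed, htop, ?_, ?_⟩
  · intro j hj
    rcases Nat.lt_or_ge j (m + 1) with hj1 | hj1
    · exact ((hF 0).ne j (by omega)).mono (h.J_sub 0 j)
    · have hj2 : j = m + 1 := by omega
      subst hj2
      exact ⟨p, hp1 _ le_rfl, hp2⟩
  · intro j x hx
    rcases h.cases hx with rfl | ⟨k, hk⟩
    · rcases lt_trichotomy j (m + 1) with hj | hj | hj
      · exact h.mem_closure (G := fun k => J (F k) j) (fun k => (J_subset _ _).trans (D_subset _ _))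
          (Frequently.of_forall fun k => (hF k).ne j (by omega)) fun k => h.J_sub k j
      · subst hj
        exact subset_closure ⟨hx, hp2⟩
      · exact absurd (D_anti _ (by omega : m + 2 ≤ j) hx) hp2
    · exact closure_mono (h.J_sub k j) ((hF k).dense j hk)

theorem exists_IsS [T2Space X] [CompactSpace X] {K : Set X} (hK : Good K) (m : ℕ) (V : Set X) (hV : IsOpen V)
    (hVK : (V ∩ K).Nonempty) : ∃ S : Set X, S ⊆ V ∩ K ∧ IsS m S := by
  induction m generalizing V with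
  | zero =>
    obtain ⟨x, hx⟩ := hVK
    exact ⟨{x}, singleton_subset_iff.2 hx, IsS_zero x⟩
  | succ m ih =>
    obtain ⟨p, hp, O, hO, hOV, hpO, hdis, hne, hconv⟩ := hK.ws V hV hVK
    choose F hF hF2 using fun k => ih (O k) (hO k) (hne k)
    have hw : Wdg K p O F := ⟨hO, hpO, hdis, hconv, fun k => (hF2 k).cl, hF⟩
    refine ⟨wdg p F, ?_, IsS_succ hw hF2⟩
    rintro y (rfl | hy)
    · exact hp
    · obtain ⟨k, hk⟩ := mem_iUnion.1 hy
      exact ⟨hOV k (hF k hk).1, (hF k hk).2⟩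

theorem IsT_wdg [T2Space X] {K : Set X} {p : X} {O F : ℕ → Set X} {n : ℕ} (h : Wdg K p O F)
    (hF1 : ∀ k, Crowded (F (2 * k))) (hF0 : ∀ k, (F (2 * k)).Nonempty) (hF2 : ∀ k, IsS n (F (2 * k + 1))) :
    IsT n (wdg p F) := by
  have hev : ∀ {P : ℕ → Prop}, (∀ k, P (2 * k)) → ∃ᶠ k in atTop, P k := by
    intro P hP
    rw [frequently_atTop]
    exact fun a => ⟨2 * a, by omega, hP a⟩
  have hod : ∀ {P : ℕ → Prop}, (∀ k, P (2 * k + 1)) → ∃ᶠ k in atTop, P k := by
    intro P hP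
    rw [frequently_atTop]
    exact fun a => ⟨2 * a + 1, by omega, hP a⟩
  have hp1 : ∀ j, p ∈ D (wdg p F) j := fun j => h.p_mem fun i _ => hev fun k => by
    rw [(hF1 k).D_eq]
    exact hF0 k
  have hJ : ∀ m, n + 1 ≤ m → J (wdg p F) m = ∅ := by
    intro m hm
    rw [Set.eq_empty_iff_forall_notMem]
    intro x hx
    rcases h.cases hx.1 with rfl | ⟨k, hk⟩
    · exact hx.2 (hp1 _)
    · have hx2 : x ∈ J (F k) m := by
        rw [← h.J_inter]
        exact ⟨hx, (h.sub k (D_subset _ _ hk)).1⟩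
      rcases Nat.even_or_odd' k with ⟨l, hl | hl⟩
      · rw [hl, (hF1 l).J_eq] at hx2
        exact hx2
      · have hx3 := D_anti (F k) hm hx2.1
        rw [hl, (hF2 l).top] at hx3
        exact hx3
  have hJcl : ∀ j ≤ n, p ∈ closure (J (wdg p F) j) := fun j hj =>
    h.mem_closure (G := fun k => J (F k) j) (fun k => (J_subset _ _).trans (D_subset _ _))
      (hod fun k => (hF2 k).ne j hj) fun k => h.J_sub k j
  refine ⟨h.closed, ⟨p, Or.inl rfl, hp1 _, hJcl n le_rfl, ?_⟩, ?_, ?_, ?_⟩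
  · rw [hJ (n + 1) le_rfl, closure_empty]
    exact Set.notMem_empty p
  · intro m x hx hL
    rcases h.cases (n := 0) hx with rfl | ⟨k, hk⟩
    · rcases lt_trichotomy m n with hm | hm | hm
      · exact absurd (hJcl (m + 1) hm) hL.2.2
      · exact hm
      · have h1 := hL.2.1
        rw [hJ m hm, closure_empty] at h1
        exact absurd h1 (Set.notMem_empty x)
    · rw [D_zero] at hk
      rw [h.Lt_iff k m hk] at hL
      rcases Nat.even_or_odd' k with ⟨l, hl | hl⟩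
      · have h1 := hL.2.1
        rw [hl, (hF1 l).J_eq, closure_empty] at h1
        exact absurd h1 (Set.notMem_empty x)
      · subst hl
        exact absurd ((hF2 l).dense (m + 1) hL.1) hL.2.2
  · intro j hj
    exact ((hF2 0).ne j hj).mono (h.J_sub _ j)
  · refine ⟨F 0, fun y hy => Or.inr (mem_iUnion.2 ⟨0, hy⟩), hF0 0, hF1 0⟩

/-- the top of the wedge is its only letter -/
theorem Lt_wdg [T2Space X] {K : Set X} {p : X} {O F : ℕ → Set X} {n : ℕ} (h : Wdg K p O F)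
    (hF1 : ∀ k, Crowded (F (2 * k))) (hF0 : ∀ k, (F (2 * k)).Nonempty) (hF2 : ∀ k, IsS n (F (2 * k + 1))) :
    Lt (wdg p F) n p ∧ ∀ m x, Lt (wdg p F) m x → x = p ∧ m = n := by
  have hT := IsT_wdg h hF1 hF0 hF2
  have h1 : ∀ m x, Lt (wdg p F) m x → x = p := by
    intro m x hL
    rcases h.cases (n := 0) (D_subset _ _ hL.1) with hxp | ⟨k, hk⟩
    · exact hxp
    · exfalso
      rw [D_zero] at hk
      rw [h.Lt_iff k m hk] at hL
      rcases Nat.even_or_odd' k with ⟨l, hl | hl⟩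
      · have h1 := hL.2.1
        rw [hl, (hF1 l).J_eq, closure_empty] at h1
        exact absurd h1 (Set.notMem_empty x)
      · subst hl
        exact absurd ((hF2 l).dense (m + 1) hL.1) hL.2.2
  obtain ⟨q, hq, hqL⟩ := hT.ex
  have h2 := h1 n q hqL
  rw [h2] at hqL
  exact ⟨hqL, fun m x hL => ⟨h1 m x hL, hT.un m x (D_subset _ _ hL.1) hL⟩⟩

theorem exists_IsT [T2Space X] [CompactSpace X] {K : Set X} (hK : Good K) (n : ℕ) (V : Set X) (hV : IsOpen V)
    (hVK : (V ∩ K).Nonempty) : ∃ T : Set X, T ⊆ V ∩ K ∧ IsT n T := by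
  obtain ⟨p, hp, O, hO, hOV, hpO, hdis, hne, hconv⟩ := hK.ws V hV hVK
  have hex : ∀ k, ∃ F : Set X, IsClosed F ∧ F ⊆ O k ∩ K ∧ (Even k → Crowded F ∧ F.Nonempty) ∧ (¬ Even k → IsS n F) := by
    intro k
    by_cases hk : Even k
    · obtain ⟨C, h1, h2, h3, h4⟩ := exists_crowded hK.cl hK.cr (hO k) (hne k)
      exact ⟨C, h1, h2, fun _ => ⟨h4, h3⟩, fun h => absurd hk h⟩
    · obtain ⟨S, h1, h2⟩ := exists_IsS hK n (O k) (hO k) (hne k)
      exact ⟨S, h2.cl, h1, fun h => absurd h hk, fun _ => h2⟩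
  choose F hF1 hF2 hF3 hF4 using hex
  have hw : Wdg K p O F := ⟨hO, hpO, hdis, hconv, hF1, hF2⟩
  refine ⟨wdg p F, ?_, IsT_wdg hw (fun k => (hF3 _ (even_two_mul k)).1) (fun k => (hF3 _ (even_two_mul k)).2)
    fun k => hF4 _ ?_⟩
  · rintro y (rfl | hy)
    · exact hp
    · obtain ⟨k, hk⟩ := mem_iUnion.1 hy
      exact ⟨hOV k (hF2 k hk).1, (hF2 k hk).2⟩
  · rw [Nat.not_even_iff_odd]
    exact odd_two_mul_add_one k

/-- the closed sets coding infinite sets of natural numbers -/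
theorem exists_code [T2Space X] [CompactSpace X] {K : Set X} (hK : Good K) (hne : K.Nonempty) (a : ℕ → ℕ)
    (ha : Function.Injective a) : ∃ (F : Set X) (p : X), IsClosed F ∧ p ∈ F ∧
      (∀ m, ∀ x ∈ F, Lt F m x → ∃ k, a k = m) ∧
      (∀ N : Set X, IsOpen N → p ∈ N → ∀ᶠ k in atTop, ∃ x ∈ F ∩ N, Lt F (a k) x) ∧
      (∃ Q : Set X, Q ⊆ F ∧ p ∈ Q ∧ Crowded Q) := by
  obtain ⟨p, hp, O, hO, hOV, hpO, hdis, hne, hconv⟩ := hK.ws univ isOpen_univ (by rw [univ_inter]; exact hne)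
  choose F hF hF2 using fun k => exists_IsT hK (a k) (O k) (hO k) (hne k)
  have h : Wdg K p O F := ⟨hO, hpO, hdis, hconv, fun k => (hF2 k).cl, hF⟩
  have hat : Tendsto a atTop atTop := ha.nat_tendsto_atTop
  choose q hq1 hq2 using fun k => (hF2 k).ex
  choose C hC1 hC2 hC3 using fun k => (hF2 k).cr
  refine ⟨wdg p F, p, h.closed, Or.inl rfl, ?_, ?_, ⟨{p} ∪ ⋃ k, C k, ?_, Or.inl rfl, ?_⟩⟩
  · intro m x hx hL
    rcases h.cases (n := 0) hx with rfl | ⟨k, hk⟩
    · exfalso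
      refine hL.2.2 (h.mem_closure (G := fun k => J (F k) (m + 1)) (fun k => (J_subset _ _).trans (D_subset _ _)) ?_
        fun k => h.J_sub k _)
      exact ((hat.eventually_ge_atTop (m + 1)).mono fun k hk => (hF2 k).ne (m + 1) hk).frequently
    · rw [D_zero] at hk
      rw [h.Lt_iff k m hk] at hL
      exact ⟨k, ((hF2 k).un m x hk hL).symm⟩
  · intro N hN hpN
    filter_upwards [hconv N hN hpN] with k hk
    refine ⟨q k, ⟨Or.inr (mem_iUnion.2 ⟨k, hq1 k⟩), hk (hF k (hq1 k))⟩, ?_⟩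
    rw [h.Lt_iff k _ (hq1 k)]
    exact hq2 k
  · rintro y (rfl | hy)
    · exact Or.inl rfl
    · obtain ⟨k, hk⟩ := mem_iUnion.1 hy
      exact Or.inr (mem_iUnion.2 ⟨k, hC1 k hk⟩)
  · rintro y (rfl | hy)
    · refine h.mem_closure (G := C) hC1 (Frequently.of_forall hC2) fun k x hx => ⟨Or.inr (mem_iUnion.2 ⟨k, hx⟩), ?_⟩
      rintro rfl
      exact hpO k (hF k (hC1 k hx)).1
    · obtain ⟨k, hk⟩ := mem_iUnion.1 hy
      refine closure_mono ?_ (hC3 k y hk)
      exact Set.sdiff_subset_sdiff_left fun z hz => Or.inr (mem_iUnion.2 ⟨k, hz⟩)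

end Pool.Agent.Lib.MP_77266e_gtM
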