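import Pool.Agent.Lib.MP_77266e_gtM.Lev

/-!
# Wedges of sequences of closed sets at a point of countable character
-/

namespace Pool.Agent.Lib.MP_77266e_gtM

open Set Filter Topology

universe u

variable {X : Type u} [TopologicalSpace X]

/-- one step: a small open set meeting `K`, away from a neighbourhood of `p` -/
theorem wedge_step [T2Space X] {K : Set X} {p : X} (hp : p ∈ closure (K \ {p})) (W : Set X) (hW : IsOpen W)
    (hpW : p ∈ W) (B : Set X) (hB : B ∈ 𝓝[K] p) :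
    ∃ O W' : Set X, IsOpen O ∧ IsOpen W' ∧ p ∈ W' ∧ W' ⊆ W ∧ O ⊆ W ∧ Disjoint O W' ∧ O ∩ K ⊆ B ∧ (O ∩ K).Nonempty := by
  obtain ⟨N, hN, hpN, hNB⟩ := mem_nhdsWithin.1 hB
  obtain ⟨x, hx1, hx2⟩ := mem_closure_iff.1 hp (N ∩ W) (hN.inter hW) ⟨hpN, hpW⟩
  obtain ⟨a, b, ha, hb, hxa, hpb, hab⟩ := t2_separation (x := x) (y := p) fun h => hx2.2 h
  refine ⟨a ∩ (N ∩ W), b ∩ W, ha.inter (hN.inter hW), hb.inter hW, ⟨hpb, hpW⟩, inter_subset_right,
    fun y hy => hy.2.2, ?_, fun y hy => hNB ⟨hy.1.2.1, hy.2⟩, ⟨x, ⟨hxa, hx1⟩, hx2.1⟩⟩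
  exact hab.mono inter_subset_left inter_subset_left

/-- a sequence of disjoint open sets which meet `K` and converge to `p` in `K` -/
theorem wedge_seq [T2Space X] {K : Set X} {p : X} (hp : p ∈ closure (K \ {p})) (hc : (𝓝[K] p).IsCountablyGenerated)
    (V : Set X) (hV : IsOpen V) (hpV : p ∈ V) :
    ∃ O : ℕ → Set X, (∀ k, IsOpen (O k)) ∧ (∀ k, O k ⊆ V) ∧ (∀ k, p ∉ O k) ∧ (∀ k l, k ≠ l → Disjoint (O k) (O l)) ∧
      (∀ k, (O k ∩ K).Nonempty) ∧ (∀ N : Set X, IsOpen N → p ∈ N → ∀ᶠ k in atTop, O k ∩ K ⊆ N) := by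
  obtain ⟨B, hB⟩ := (𝓝[K] p).exists_antitone_basis
  have hstep : ∀ (W : {W : Set X // IsOpen W ∧ p ∈ W}) (k : ℕ), ∃ q : Set X × {W : Set X // IsOpen W ∧ p ∈ W},
      IsOpen q.1 ∧ (q.2 : Set X) ⊆ W ∧ q.1 ⊆ W ∧ Disjoint q.1 q.2 ∧ q.1 ∩ K ⊆ B k ∧ (q.1 ∩ K).Nonempty := by
    intro W k
    obtain ⟨O, W', h1, h2, h3, h4, h5, h6, h7, h8⟩ :=
      wedge_step hp W W.2.1 W.2.2 (B k) (hB.1.mem_of_mem trivial)
    exact ⟨(O, ⟨W', h2, h3⟩), h1, h4, h5, h6, h7, h8⟩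
  choose q hq using hstep
  let W : ℕ → {W : Set X // IsOpen W ∧ p ∈ W} := fun k =>
    Nat.rec ⟨V, hV, hpV⟩ (fun k W => (q W k).2) k
  have hWs : ∀ k, W (k + 1) = (q (W k) k).2 := fun k => rfl
  let O : ℕ → Set X := fun k => (q (W k) k).1
  have hWanti : ∀ k l, k ≤ l → (W l).1 ⊆ (W k).1 := by
    intro k l hkl
    induction l, hkl using Nat.le_induction with
    | base => exact Subset.rfl
    | succ l _ ih =>
      rw [hWs]
      exact (hq (W l) l).2.1.trans ih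
  have hOW : ∀ k, O k ⊆ (W k).1 := fun k => (hq (W k) k).2.2.1
  have hdis : ∀ k l, k < l → Disjoint (O k) (O l) := by
    intro k l hkl
    have h1 : Disjoint (O k) (W (k + 1)).1 := (hq (W k) k).2.2.2.1
    exact h1.mono_right ((hOW l).trans (hWanti (k + 1) l hkl))
  refine ⟨O, fun k => (hq (W k) k).1, fun k => (hOW k).trans (hWanti 0 k (Nat.zero_le k)), ?_, ?_, ?_, ?_⟩
  · intro k hk
    have h1 : Disjoint (O k) (W (k + 1)).1 := (hq (W k) k).2.2.2.1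
    exact Set.disjoint_left.1 h1 hk (W (k + 1)).2.2
  · intro k l hkl
    rcases lt_or_gt_of_ne hkl with h | h
    · exact hdis k l h
    · exact (hdis l k h).symm
  · exact fun k => (hq (W k) k).2.2.2.2.2
  · intro N hN hpN
    have h1 : N ∈ 𝓝[K] p := mem_nhdsWithin_of_mem_nhds (hN.mem_nhds hpN)
    obtain ⟨i, -, hi⟩ := hB.1.mem_iff.1 h1
    refine eventually_atTop.2 ⟨i, fun k hk => ?_⟩
    exact ((hq (W k) k).2.2.2.2.1.trans (hB.2 hk)).trans hi

/-- the data of a wedge -/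
structure Wdg (K : Set X) (p : X) (O F : ℕ → Set X) : Prop where
  op : ∀ k, IsOpen (O k)
  np : ∀ k, p ∉ O k
  dis : ∀ k l, k ≠ l → Disjoint (O k) (O l)
  conv : ∀ N : Set X, IsOpen N → p ∈ N → ∀ᶠ k in atTop, O k ∩ K ⊆ N
  cl : ∀ k, IsClosed (F k)
  sub : ∀ k, F k ⊆ O k ∩ K

/-- the wedge -/
def wdg (p : X) (F : ℕ → Set X) : Set X := {p} ∪ ⋃ k, F k

namespace Wdg

variable {K : Set X} {p : X} {O F : ℕ → Set X}

theorem closed [T2Space X] (h : Wdg K p O F) : IsClosed (wdg p F) := by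
  rw [← closure_subset_iff_isClosed]
  intro x hx
  by_cases hxp : x = p
  · exact Or.inl hxp
  obtain ⟨a, b, ha, hb, hxa, hpb, hab⟩ := t2_separation hxp
  obtain ⟨m, hm⟩ := eventually_atTop.1 (h.conv b hb hpb)
  have h1 : wdg p F ⊆ (⋃ k ∈ Finset.range m, F k) ∪ b := by
    rintro y (rfl | hy)
    · exact Or.inr hpb
    · obtain ⟨k, hk⟩ := mem_iUnion.1 hy
      by_cases hkm : k < m
      · exact Or.inl (mem_biUnion (Finset.mem_coe.2 (Finset.mem_range.2 hkm)) hk)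
      · exact Or.inr (hm k (not_lt.1 hkm) (h.sub k hk))
  have h2 := closure_mono h1 hx
  rw [closure_union] at h2
  rcases h2 with h2 | h2
  · have h3 : IsClosed (⋃ k ∈ Finset.range m, F k) := isClosed_biUnion_finset fun k _ => h.cl k
    rw [h3.closure_eq] at h2
    obtain ⟨k, hk⟩ := mem_iUnion.1 h2
    obtain ⟨_, hk2⟩ := mem_iUnion.1 hk
    exact Or.inr (mem_iUnion.2 ⟨k, hk2⟩)
  · exfalso
    obtain ⟨y, hy1, hy2⟩ := mem_closure_iff.1 h2 a ha hxa
    exact Set.disjoint_left.1 hab hy1 hy2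

theorem inter (h : Wdg K p O F) (k : ℕ) : wdg p F ∩ O k = F k := by
  ext y
  constructor
  · rintro ⟨rfl | hy, hyO⟩
    · exact absurd hyO (h.np k)
    · obtain ⟨l, hl⟩ := mem_iUnion.1 hy
      by_cases hkl : k = l
      · rw [hkl]
        exact hl
      · exact absurd (h.sub l hl).1 (Set.disjoint_left.1 (h.dis k l hkl) hyO)
  · intro hy
    exact ⟨Or.inr (mem_iUnion.2 ⟨k, hy⟩), (h.sub k hy).1⟩

theorem D_inter (h : Wdg K p O F) (k n : ℕ) : D (wdg p F) n ∩ O k = D (F k) n := by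
  rw [← D_inter_open (h.op k), h.inter]

theorem J_inter (h : Wdg K p O F) (k n : ℕ) : J (wdg p F) n ∩ O k = J (F k) n := by
  rw [← J_inter_open (h.op k), h.inter]

theorem D_sub (h : Wdg K p O F) (k n : ℕ) : D (F k) n ⊆ D (wdg p F) n := by
  rw [← h.D_inter]
  exact inter_subset_left

theorem J_sub (h : Wdg K p O F) (k n : ℕ) : J (F k) n ⊆ J (wdg p F) n := by
  rw [← h.J_inter]
  exact inter_subset_left

theorem Lt_iff (h : Wdg K p O F) (k n : ℕ) {x : X} (hx : x ∈ F k) : Lt (wdg p F) n x ↔ Lt (F k) n x := by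
  rw [← Lt_inter_open (h.op k) n (h.sub k hx).1, h.inter]

theorem mem_closure (h : Wdg K p O F) {G : ℕ → Set X} (hG : ∀ k, G k ⊆ F k) (hf : ∃ᶠ k in atTop, (G k).Nonempty)
    {A : Set X} (hA : ∀ k, G k ⊆ A) : p ∈ closure A := by
  rw [mem_closure_iff]
  intro N hN hpN
  obtain ⟨k, ⟨x, hx⟩, hk⟩ := (hf.and_eventually (h.conv N hN hpN)).exists
  exact ⟨x, hk (h.sub k (hG k hx)), hA k hx⟩

theorem cases (h : Wdg K p O F) {x : X} {n : ℕ} (hx : x ∈ D (wdg p F) n) : x = p ∨ ∃ k, x ∈ D (F k) n := by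
  rcases D_subset _ _ hx with hxp | hx1
  · exact Or.inl hxp
  · obtain ⟨k, hk⟩ := mem_iUnion.1 hx1
    refine Or.inr ⟨k, ?_⟩
    rw [← h.D_inter]
    exact ⟨hx, (h.sub k hk).1⟩

/-- the point of the wedge is in the next derivative -/
theorem p_mem_succ (h : Wdg K p O F) {n : ℕ} (hp : p ∈ D (wdg p F) n) (hf : ∃ᶠ k in atTop, (D (F k) n).Nonempty) :
    p ∈ D (wdg p F) (n + 1) := by
  refine ⟨hp, h.mem_closure (G := fun k => D (F k) n) (fun k => D_subset _ _) hf fun k x hx => ⟨h.D_sub k n hx, ?_⟩⟩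
  rintro rfl
  exact h.np k (h.sub k (D_subset _ _ hx)).1

theorem p_mem (h : Wdg K p O F) {n : ℕ} (hf : ∀ j < n, ∃ᶠ k in atTop, (D (F k) j).Nonempty) :
    p ∈ D (wdg p F) n := by
  induction n with
  | zero => exact Or.inl rfl
  | succ n ih => exact h.p_mem_succ (ih fun j hj => hf j (by omega)) (hf n (by omega))

/-- the point of the wedge is not in the next derivative -/
theorem p_not_mem (h : Wdg K p O F) {n : ℕ} (hf : ∀ k, D (F k) n = ∅) : p ∉ D (wdg p F) (n + 1) := by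
  rintro ⟨_, h2⟩
  have h3 : D (wdg p F) n \ {p} = ∅ := by
    rw [Set.eq_empty_iff_forall_notMem]
    rintro x ⟨hx1, hx2⟩
    rcases h.cases hx1 with hxp | ⟨k, hk⟩
    · exact hx2 hxp
    · rw [hf k] at hk
      exact hk
  rw [h3, closure_empty] at h2
  exact h2

end Wdg

end Pool.Agent.Lib.MP_77266e_gtM
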